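import Pool.Agent.H90.D2.Nrr
import Pool.Agent.H73.D2.Trn
import Pool.Agent.H1.GEN.Clx
import Pool.Agent.H54.GN.NoLb
import Pool.Agent.H68.OWN.Npl
import Pool.Agent.H2.GEN.AttG

/-!
# The digits of the own velocity behind a scale are active

`nocov_th`: the digits `th .. th + x` of the natural velocity of the first coordinate are not covered
by few values which depend on the visible data and on the first `th` digits. `act_cls`, `nocov_cls`: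
in a class, for two scales with an active interval.
-/

set_option autoImplicit false

namespace Pool.TY12

open Finset Real MvPolynomial
open Pool.Agent.H49.Ent Pool.Agent.H32.Dense Pool.STK Pool.KA Pool.KSAT Pool.K2S Pool.PB Pool.S6C
open Pool.GEN Pool.CHT Pool.CHX
open Pool.D2F
open Pool.D2T

variable {m J : ℕ}

/-- The velocity of the first coordinate and its natural value, over the visible data. -/
theorem xn_one {F : Fam m J} {c : ℕ → Fin m} {g : ℕ → ℕ} {a k e n : ℕ}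
    {ψ : PtT F → ℕ → Option (Fin m) → ℝ} {ψH : LnT F → ℕ → Option (Fin m) → ℝ} {B : F.Ω → Prop}
    (fr : FrOK F c n a k e g B ψ ψH) {ω ω' : F.Ω} (hp : ptr F J ω = ptr F J ω') :
    Xn F c g a ψ ω 1 - Xn F c g a ψ ω' 1 = 2 ^ g 0 / 2 ^ a * (F.d ω (c 0) - F.d ω' (c 0)) := by
  have e1 : ∀ ν : F.Ω, Xn F c g a ψ ν 1 = 2 ^ g 0 * (((1 / 2 ^ a : ℝ) • bd F ν) (some (c 0)) -
      cv (ψ (ptr F J ν) 0) ((1 / 2 ^ a : ℝ) • bd F ν)) := fun _ => rfl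
  have e2 : cv (ψ (ptr F J ω) 0) ((1 / 2 ^ a : ℝ) • bd F ω) =
      cv (ψ (ptr F J ω') 0) ((1 / 2 ^ a : ℝ) • bd F ω') := by
    rw [hp]
    exact cv_congr (fr.dep _ 0) rfl fun j hj => absurd hj (Nat.not_lt_zero j)
  rw [e1, e1, e2, ← mul_sub, sub_sub_sub_cancel_right]
  show 2 ^ g 0 * ((1 / 2 ^ a : ℝ) * F.d ω (c 0) - (1 / 2 ^ a : ℝ) * F.d ω' (c 0)) = _
  ring

/-- Cells of near reals. -/
theorem fl_near {x y : ℝ} (h : |x - y| ≤ 3) : |⌊x⌋ - ⌊y⌋| ≤ ((3 : ℕ) : ℤ) := by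
  have b1 := Int.floor_le x
  have b2 := Int.lt_floor_add_one x
  have b3 := Int.floor_le y
  have b4 := Int.lt_floor_add_one y
  rw [abs_le] at h
  have b5 : (⌊x⌋ : ℝ) < ⌊y⌋ + 4 := by linarith
  have b6 : (⌊y⌋ : ℝ) < ⌊x⌋ + 4 := by linarith
  have b7 : ⌊x⌋ < ⌊y⌋ + 4 := by exact_mod_cast b5
  have b8 : ⌊y⌋ < ⌊x⌋ + 4 := by exact_mod_cast b6
  rw [abs_le]
  push_cast
  constructor <;> omega

/-- The logarithm of the number of cells. -/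
theorem log_seven : Real.log (2 * ((3 : ℕ) : ℝ) + 1) ≤ 2 := by
  have h5 : Real.log (2 * ((3 : ℕ) : ℝ) + 1) ≤ Real.log (Real.exp 2) := by
    refine Real.log_le_log (by positivity) ?_
    have h7 : (2.7 : ℝ) ≤ Real.exp 1 := by
      have := Real.exp_one_gt_d9
      linarith
    have h8 : Real.exp 2 = Real.exp 1 * Real.exp 1 := by
      rw [← Real.exp_add]
      norm_num
    rw [h8]
    push_cast
    nlinarith
  rwa [Real.log_exp] at h5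

/-- **The digits behind a scale are not covered**, from the entropies on large events. -/
theorem nocov_th {F : Fam m J} {c : ℕ → Fin m} {g : ℕ → ℕ} {a k e n u : ℕ}
    {ψ : PtT F → ℕ → Option (Fin m) → ℝ} {ψH : LnT F → ℕ → Option (Fin m) → ℝ} {B : F.Ω → Prop}
    (hB : 0 < Pe F.p B) (fr : FrOK F c n a k e g B ψ ψH) (ha : a ≤ g 0 + u) (ha' : g 0 ≤ a + u)
    {E : F.Ω → ℝ} {th x r₀ r₁ : ℕ}
    (hE : ∀ ω, 0 < cond F.p B True ω → |E ω - Xn F c g a ψ ω 1| ≤ 1 / 2 ^ (th + x))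
    (hr₀ : th + u ≤ r₀) (hr₁ : r₁ + u ≤ th + x) {ζ' : Type} (f : PtT F → ζ') {r : ℝ}
    (act : ∀ G : F.Ω → Prop, Sub G B → Pe F.p B ≤ 2 ^ 40 * Pe F.p G →
      r ≤ CH (cond F.p G True) (fun ω => F.D r₁ ω (c 0))
        (fun ω => (F.D r₀ ω, (F.X J ω, F.W ω)))) {K : ℕ}
    (hK : Real.log K + 4 < r) :
    NoCov (cond F.p B True) (fun ω => ⌊2 ^ (th + x) * E ω⌋)
      (fun ω => (f (ptr F J ω), ⌊2 ^ th * E ω⌋)) K (1 / 2 ^ 39) := by
  have hp := isLaw_cond F.isLaw hB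
  refine nocov_of_ev hp _ _ (r := r - 4) (by positivity) (fun G hG => ?_) (by linarith)
  have hG' : 1 / 2 ^ 39 ≤ Pe (cond F.p B True) G := hG
  rw [Pe_cond, le_div_iff₀ hB] at hG'
  obtain ⟨G', hGG⟩ : ∃ G' : F.Ω → Prop, G' = fun ω => B ω ∧ G ω := ⟨_, rfl⟩
  have e1 : cond (cond F.p B True) G True = cond F.p G' True := by
    rw [hGG]
    exact Piece.cond_inter hB.ne'
  have e2 : Pe F.p (fun ω => G ω ∧ B ω) = Pe F.p G' := by
    rw [hGG]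
    congr 1
    funext ω
    exact propext ⟨fun h => ⟨h.2, h.1⟩, fun h => ⟨h.2, h.1⟩⟩
  have hPG : 1 / 2 ^ 39 * Pe F.p B ≤ Pe F.p G' := by
    rw [← e2]
    first
      | exact hG'
      | (rw [hGG] at e2; rw [e2]; exact hG')
  have hG0 : 0 < Pe F.p G' := lt_of_lt_of_le (by positivity) hPG
  have hsub : Sub G' B := fun ω hω => by
    rw [hGG] at hω
    exact hω.1
  have h1 := act G' hsub (by linarith)
  rw [e1]
  have hq := isLaw_cond F.isLaw hG0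
  have hsup : ∀ ω, 0 < cond F.p G' True ω → 0 < cond F.p B True ω := by
    intro ω hω
    have h2 := (cond_pos_iff F.isLaw.nonneg G' True ω).mp hω
    exact (cond_pos_iff F.isLaw.nonneg B True ω).mpr ⟨h2.1, eq_true (hsub ω (of_eq_true h2.2))⟩
  -- two samples of one point
  have hX : ∀ ω ω', ptr F J ω = ptr F J ω' → 0 < cond F.p G' True ω → 0 < cond F.p G' True ω' →
      |(E ω - E ω') - 2 ^ g 0 / 2 ^ a * (F.d ω (c 0) - F.d ω' (c 0))| ≤ 2 * (1 / 2 ^ (th + x)) := by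
    intro ω ω' hp' hω hω'
    have a2 := hE ω (hsup ω hω)
    have a3 := hE ω' (hsup ω' hω')
    rw [← xn_one fr hp']
    have e3 : E ω - E ω' - (Xn F c g a ψ ω 1 - Xn F c g a ψ ω' 1) =
        (E ω - Xn F c g a ψ ω 1) - (E ω' - Xn F c g a ψ ω' 1) := by ring
    rw [e3]
    have := abs_sub (E ω - Xn F c g a ψ ω 1) (E ω' - Xn F c g a ψ ω' 1)
    linarith
  have hpt : ∀ ω ω' : F.Ω, (F.X J ω, F.W ω) = (F.X J ω', F.W ω') → ptr F J ω = ptr F J ω' :=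
    fun ω ω' h => h
  -- the first digits
  have h2 : CH (cond F.p G' True) (fun ω => ⌊2 ^ th * E ω⌋)
      (fun ω => (F.D r₀ ω, (F.X J ω, F.W ω))) ≤ Real.log (2 * ((3 : ℕ) : ℝ) + 1) := by
    refine Pool.OWN68.CH_pair hq _ _ fun ω ω' hω hω' hZ => ?_
    obtain ⟨hD, hP⟩ := Prod.ext_iff.1 hZ
    dsimp only at hD hP
    refine fl_near ?_
    have a1 := hX ω ω' (hpt ω ω' hP) hω hω'
    have a2 : (2 : ℝ) ^ r₀ * |F.d ω (c 0) - F.d ω' (c 0)| ≤ 1 := by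
      have h3 : ⌊(2 : ℝ) ^ r₀ * F.d ω (c 0)⌋ = ⌊(2 : ℝ) ^ r₀ * F.d ω' (c 0)⌋ := congrFun hD (c 0)
      have h4 := (Int.abs_sub_lt_one_of_floor_eq_floor h3).le
      rwa [← mul_sub, abs_mul, abs_of_pos (by positivity : (0 : ℝ) < 2 ^ r₀)] at h4
    have a3 : |(E ω - E ω')| ≤ 2 ^ g 0 / 2 ^ a * |F.d ω (c 0) - F.d ω' (c 0)| +
        2 * (1 / 2 ^ (th + x)) := by
      have h4 := abs_sub_abs_le_abs_sub (E ω - E ω')
        (2 ^ g 0 / 2 ^ a * (F.d ω (c 0) - F.d ω' (c 0)))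
      rw [abs_mul, abs_of_pos (by positivity : (0 : ℝ) < 2 ^ g 0 / 2 ^ a)] at h4
      linarith
    rw [← mul_sub, abs_mul, abs_of_pos (by positivity : (0 : ℝ) < 2 ^ th)]
    have a4 := mul_le_mul_of_nonneg_left a3 (by positivity : (0 : ℝ) ≤ 2 ^ th)
    have a5 : (2 : ℝ) ^ th * (2 * (1 / 2 ^ (th + x))) ≤ 2 := by
      rw [pow_add]
      have h4 : (2 : ℝ) ^ th * (2 * (1 / (2 ^ th * 2 ^ x))) = 2 / 2 ^ x := by field_simp
      rw [h4]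
      exact div_le_self (by norm_num) (one_le_pow₀ (by norm_num))
    have a6 : (2 : ℝ) ^ th * (2 ^ g 0 / 2 ^ a * |F.d ω (c 0) - F.d ω' (c 0)|) ≤ 1 := by
      refine le_trans ?_ a2
      rw [← mul_assoc]
      refine mul_le_mul_of_nonneg_right ?_ (abs_nonneg _)
      rw [← mul_div_assoc, div_le_iff₀ (by positivity), ← pow_add, ← pow_add]
      exact pow_le_pow_right₀ (by norm_num) (by omega)
    rw [mul_add] at a4
    linarith
  -- the digits of the direction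
  have h3 : CH (cond F.p G' True) (fun ω => F.D r₁ ω (c 0))
      (fun ω => (⌊2 ^ (th + x) * E ω⌋, (⌊2 ^ th * E ω⌋, (F.D r₀ ω, (F.X J ω, F.W ω))))) ≤
      Real.log (2 * ((3 : ℕ) : ℝ) + 1) := by
    refine Pool.OWN68.CH_pair hq _ _ fun ω ω' hω hω' hZ => ?_
    obtain ⟨hE1, hZ2⟩ := Prod.ext_iff.1 hZ
    obtain ⟨-, hZ3⟩ := Prod.ext_iff.1 hZ2
    obtain ⟨-, hP⟩ := Prod.ext_iff.1 hZ3
    dsimp only at hE1 hP
    have f1 : F.D r₁ ω (c 0) = ⌊2 ^ r₁ * F.d ω (c 0)⌋ := rfl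
    have f2 : F.D r₁ ω' (c 0) = ⌊2 ^ r₁ * F.d ω' (c 0)⌋ := rfl
    rw [f1, f2]
    refine fl_near ?_
    have a1 := hX ω ω' (hpt ω ω' hP) hω hω'
    have a2 : |E ω - E ω'| ≤ 1 / 2 ^ (th + x) := by
      have h4 := (Int.abs_sub_lt_one_of_floor_eq_floor hE1).le
      rw [← mul_sub, abs_mul, abs_of_pos (by positivity : (0 : ℝ) < 2 ^ (th + x))] at h4
      rw [le_div_iff₀ (by positivity)]
      linarith
    have a3 : 2 ^ g 0 / 2 ^ a * |F.d ω (c 0) - F.d ω' (c 0)| ≤ 3 * (1 / 2 ^ (th + x)) := by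
      have h4 := abs_sub_abs_le_abs_sub
        (2 ^ g 0 / 2 ^ a * (F.d ω (c 0) - F.d ω' (c 0))) (E ω - E ω')
      rw [abs_mul, abs_of_pos (by positivity : (0 : ℝ) < 2 ^ g 0 / 2 ^ a),
        abs_sub_comm (2 ^ g 0 / 2 ^ a * (F.d ω (c 0) - F.d ω' (c 0)))] at h4
      linarith
    rw [← mul_sub, abs_mul, abs_of_pos (by positivity : (0 : ℝ) < 2 ^ r₁)]
    have a4 : (2 : ℝ) ^ r₁ * |F.d ω (c 0) - F.d ω' (c 0)| ≤
        2 ^ (th + x) * (2 ^ g 0 / 2 ^ a * |F.d ω (c 0) - F.d ω' (c 0)|) := by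
      rw [← mul_assoc]
      refine mul_le_mul_of_nonneg_right ?_ (abs_nonneg _)
      rw [← mul_div_assoc, le_div_iff₀ (by positivity), ← pow_add, ← pow_add]
      exact pow_le_pow_right₀ (by norm_num) (by omega)
    refine a4.trans ((mul_le_mul_of_nonneg_left a3 (by positivity)).trans (le_of_eq ?_))
    field_simp
  -- the end
  have h4 : CH (cond F.p G' True) (fun ω => ⌊2 ^ (th + x) * E ω⌋)
      (fun ω => (⌊2 ^ th * E ω⌋, (F.D r₀ ω, (F.X J ω, F.W ω)))) ≤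
      CH (cond F.p G' True) (fun ω => ⌊2 ^ (th + x) * E ω⌋)
        (fun ω => (f (ptr F J ω), ⌊2 ^ th * E ω⌋)) := by
    refine CH_mono_cond hq.nonneg fun ω ω' _ _ h => ?_
    obtain ⟨k1, k2⟩ := Prod.ext_iff.1 h
    obtain ⟨-, k3⟩ := Prod.ext_iff.1 k2
    dsimp only at k1 k3
    show (f (ptr F J ω), ⌊2 ^ th * E ω⌋) = (f (ptr F J ω'), ⌊2 ^ th * E ω'⌋)
    rw [hpt ω ω' k3, k1]
  have h5 := CH_le_add hq.nonneg (fun ω => F.D r₁ ω (c 0)) (fun ω => ⌊2 ^ th * E ω⌋)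
    (fun ω => (F.D r₀ ω, (F.X J ω, F.W ω)))
  have h6 := CH_le_add hq.nonneg (fun ω => F.D r₁ ω (c 0)) (fun ω => ⌊2 ^ (th + x) * E ω⌋)
    (fun ω => (⌊2 ^ th * E ω⌋, (F.D r₀ ω, (F.X J ω, F.W ω))))
  have h7 := log_seven
  linarith

/-- **The active interval in the class**, on large events. -/
theorem act_cls {s : Fin m → ℝ} {d : ℕ → ℝ} {al : ℝ} {g₀ : ℝ → ℝ} {e : ℝ} {K₀ : ℕ}
    {N : ℚ → ℚ → ℝ} {S : PCl m} (hX : ClX s d al g₀ e K₀ N S) {k : Fin m} (hk : (k : ℕ) = 0)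
    {q q' : ℚ} (h0 : 0 ≤ q) (h1 : q ≤ q') (h2 : q' ≤ 1) {r : ℝ} (hr : r < N q q') {c₁ : ℝ}
    (hc₁ : 0 < c₁) :
    Bas S (fun J F A => ∀ G : F.Ω → Prop, Sub G A → c₁ * Pe F.p A ≤ Pe F.p G →
      r * Real.log 2 * J ≤ CH (cond F.p G True) (fun ω => F.D ⌊(q' : ℝ) * J⌋₊ ω k)
        (fun ω => (F.D ⌊(q : ℝ) * J⌋₊ ω, (F.X J ω, F.W ω)))) := by
  have hB := hX.actb k hk q q' h0 h1 h2 (N q q' - r) (by linarith)
  rw [sub_sub_cancel] at hB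
  exact Bas.mono 0 (bas_ev hB hc₁) fun J _ F A hA G hGA hcG => hA G hGA hcG

/-- **The digits behind an active scale are not covered**, class form. -/
theorem nocov_cls {s : Fin m → ℝ} {d : ℕ → ℝ} {al : ℝ} {g₀ : ℝ → ℝ} {e : ℝ} {K₀ : ℕ}
    {N : ℚ → ℚ → ℝ} {S : PCl m} (hX : ClX s d al g₀ e K₀ N S) (hal : 0 < al) {k : Fin m}
    (hk : (k : ℕ) = 0) {θ x₀ : ℚ} (hθ : 0 ≤ θ) (hx₀ : 0 < x₀) (h1 : θ + x₀ ≤ 1)
    (hN : al / 2 * x₀ ≤ N θ (θ + x₀)) {c₁ : ℝ} (hc₁ : 0 < c₁) :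
    Bas S (fun J F A => ∀ B : F.Ω → Prop, Sub B A → c₁ * Pe F.p A ≤ Pe F.p B →
      ∀ (c : ℕ → Fin m) (g : ℕ → ℕ) (a k' e' n u : ℕ) (ψ : PtT F → ℕ → Option (Fin m) → ℝ)
        (ψH : LnT F → ℕ → Option (Fin m) → ℝ), c 0 = k → FrOK F c n a k' e' g B ψ ψH →
      a ≤ g 0 + u → g 0 ≤ a + u → ∀ (E : F.Ω → ℝ) (th x : ℕ),
      (∀ ω, 0 < cond F.p B True ω → |E ω - Xn F c g a ψ ω 1| ≤ 1 / 2 ^ (th + x)) →
      th + u ≤ ⌊(θ : ℝ) * J⌋₊ → ⌊((θ : ℝ) + x₀) * J⌋₊ + u ≤ th + x →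
      ∀ (ζ' : Type) (f : PtT F → ζ') (K : ℕ), Real.log K ≤ al * Real.log 2 / 8 * x₀ * J →
      NoCov (cond F.p B True) (fun ω => ⌊2 ^ (th + x) * E ω⌋)
        (fun ω => (f (ptr F J ω), ⌊2 ^ th * E ω⌋)) K (1 / 2 ^ 39)) := by
  have hl2 := Real.log_pos (show (1 : ℝ) < 2 by norm_num)
  have hx₀R : (0 : ℝ) < x₀ := by exact_mod_cast hx₀
  have hr : al / 4 * x₀ < N θ (θ + x₀) := by
    have : 0 < al * x₀ := by positivity
    linarith
  have hA := act_cls hX hk hθ (by linarith : θ ≤ θ + x₀) h1 hr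
    (c₁ := c₁ / 2 ^ 40) (by positivity)
  have hPos : Bas S (fun _ F A => 0 < Pe F.p A) := ⟨1, one_pos, 0, fun J _ F A hA =>
    (Real.exp_pos _).trans_le (hX.mem 1 J F A hA).2.2.2.1⟩
  obtain ⟨J₀, hJ₀⟩ := exists_nat_ge (5 / (al * Real.log 2 / 8 * x₀))
  refine Bas.mono J₀ (hA.and hPos) ?_
  rintro J hJ F A ⟨hact, hp0⟩ B hBA hB c g a k' e' n u ψ ψH hck fr ha ha' E th x hE h3 h4 ζ' f K hK
  have hB0 : 0 < Pe F.p B := lt_of_lt_of_le (mul_pos hc₁ hp0) hB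
  have hJ1 : 5 ≤ al * Real.log 2 / 8 * x₀ * J := by
    have h5 : 5 / (al * Real.log 2 / 8 * x₀) ≤ J := hJ₀.trans (by exact_mod_cast hJ)
    rw [div_le_iff₀ (by positivity)] at h5
    linarith
  refine nocov_th hB0 fr ha ha' hE h3 h4 f (r := al / 4 * x₀ * Real.log 2 * J) ?_ ?_
  · intro G hGB hG
    have h5 := hact G (fun ω hω => hBA ω (hGB ω hω)) (by
      have h6 : c₁ / 2 ^ 40 * Pe F.p A = 1 / 2 ^ 40 * (c₁ * Pe F.p A) := by ring
      rw [h6]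
      have h7 : 1 / 2 ^ 40 * (c₁ * Pe F.p A) ≤ 1 / 2 ^ 40 * Pe F.p B :=
        mul_le_mul_of_nonneg_left hB (by positivity)
      linarith)
    have e1 : (((θ + x₀ : ℚ) : ℝ)) = (θ : ℝ) + x₀ := by push_cast; ring
    rw [e1] at h5
    rw [hck]
    exact h5
  · have e1 : al / 4 * x₀ * Real.log 2 * J = 2 * (al * Real.log 2 / 8 * x₀ * J) := by ring
    rw [e1]
    linarith

end Pool.TY12
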