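import Pool.Agent.H31.D2.Ry6
import Pool.Agent.H12.TY.Act

/-!
# The tie cell `(1,k,k;k+1)`, `k > 2`: the digits of the reference velocity behind a scale

`re_near`: the reference value is near the velocity. `act_y`: the hypotheses `act₁`, `act₂` of
`hop_blk_y`, class form.
-/

set_option autoImplicit false

namespace Pool.TY12

open Finset Real MvPolynomial
open Pool.Agent.H49.Ent Pool.Agent.H32.Dense Pool.STK Pool.KA Pool.KSAT Pool.K2S Pool.PB Pool.S6C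
open Pool.GEN Pool.CHT Pool.CHX Pool.LA91
open Pool.D2F Pool.D2Z Pool.D2F2 Pool.D2N
open Pool.D2R (dd hs co co_slam)
open Pool.KPO (bY rE BkM CoY reh_y)
open Pool.D2T (NoCov)

variable {m J : ℕ}

/-- The reference value is near the velocity. -/
theorem re_near {F : Fam m J} {c : ℕ → Fin m} {g g' : ℕ → ℕ}
    {W n D a' k k' e₀ e₁ n' s V : ℕ} {ψ ψ' : PtT F → ℕ → Option (Fin m) → ℝ}
    {ψH ψH' : LnT F → ℕ → Option (Fin m) → ℝ} {Ht : LnT F → MvPolynomial (Option (Fin m)) ℝ}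
    {B : F.Ω → Prop} {ζ ε : Type} {z : LnT F → ζ} {e : LnT F → ε} {δ δ₁ δ' Kn L K B₀ : ℝ}
    (H : ReH F c g g' W n D a' k k' e₀ e₁ n' s V ψ ψ' ψH ψH' Ht B z e δ δ₁ δ' Kn L K B₀)
    {P : F.Ω → ℝ} (hB : ∀ ω, 0 < P ω → B ω) {ω : F.Ω} (hω : 0 < P ω) :
    |rE F c g W ψ P z e ω - Xn F c g W ψ ω 1| ≤ K / 2 ^ s := by
  obtain ⟨ω₀, h1, h2, h3, h4⟩ := rfv_spec (R := ℝ) (z := fun ω => z (slam F W ω))
    (e := fun ω => e (slam F W ω)) hω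
  unfold rE
  rw [h4 (En F c g W ψ)]
  exact H.nE ω₀ ω (hB ω₀ h1) (hB ω hω) h2 h3

/-- **The digits of the reference velocity behind an active scale are not covered.** -/
theorem act_y {sl : Fin m → ℝ} {d : ℕ → ℝ} {al : ℝ} {g₀ : ℝ → ℝ} {ec : ℝ} {K₀ : ℕ}
    {N : ℚ → ℚ → ℝ} {S : PCl m} (hX : ClX sl d al g₀ ec K₀ N S) (hal : 0 < al)
    {θ x₀ : ℚ} (hθ : 0 ≤ θ) (hx₀ : 0 < x₀) (h1 : θ + x₀ ≤ 1)
    (hN : al / 2 * x₀ ≤ N θ (θ + x₀)) {c₁ : ℝ} (hc₁ : 0 < c₁) {ρ : ℝ} (hρ0 : 0 ≤ ρ)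
    (hρ : ρ ≤ al * Real.log 2 / 4 * x₀) {c : ℕ → Fin m} (hc0 : (c 0 : ℕ) = 0) {D : ℕ} :
    Bas S (fun J F A => ∀ B : F.Ω → Prop, Sub B A → c₁ * Pe F.p A ≤ Pe F.p B →
      ∀ (x e₀ sg w₀ w W b a' : ℕ) (g₁ g₂ g gb g' gT : ℕ → ℕ) (kG M v v' e p : ℕ) (U : ℝ)
      (ψ₁ ψ₂ ψ ψ' Sv : PtT F → ℕ → Option (Fin m) → ℝ)
      (ψH₁ ψH₂ ψH ψH' : LnT F → ℕ → Option (Fin m) → ℝ)
      (Ga Gc G' : PtT F → ℕ → MvPolynomial (Option (Fin m)) ℝ)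
      (Ha Hc H' : LnT F → ℕ → MvPolynomial (Option (Fin m)) ℝ)
      (T : PtT F → ℕ → MvPolynomial (Option (Fin m)) ℝ)
      (TH : LnT F → ℕ → MvPolynomial (Option (Fin m)) ℝ)
      (Ht : LnT F → MvPolynomial (Option (Fin m)) ℝ) (hD : ∀ s, (Ht s).totalDegree ≤ D)
      (q q₀ q₁ s Mg : ℕ),
      HbG F c D x e₀ sg w₀ w W b a' g₁ g₂ g gb g' gT kG M v v' e p U B ψ₁ ψ₂ ψ ψ'
        Sv ψH₁ ψH₂ ψH ψH' Ga Gc G' Ha Hc H' T TH Ht →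
      HpN x s Mg w₀ W b a' g₁ g gb g' → w₀ ≤ w → BkM x s sg q q₀ q₁ w W g₂ g →
      CoY F c s x sg w₀ w W g₂ g ψH₂ ψH Ht B → (∀ j < 3, e₀ + g j + (s + 3) ≤ J) →
      ∀ (Va : Type) (za : PtT F → Va) (zaH : LnT F → Va), Rcd F B W za zaH →
      ∀ (u th x₁ : ℕ), W ≤ g 0 + u → g 0 ≤ W + u → th + x₁ + 150 * x ≤ s →
      th + u ≤ ⌊(θ : ℝ) * J⌋₊ → ⌊((θ : ℝ) + x₀) * J⌋₊ + u ≤ th + x₁ →
      NoCov (cond F.p B True) (fun ω => ⌊2 ^ (th + x₁) * rE F c g W ψ (cond F.p B True)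
          zaH (eL (hdt2 F c g₂ w (w - w₀) 3 D q₀ q sg ψH₂ Ht hD) w W (g₂ 0 + q₁)) ω⌋)
        (fun ω => (ptr F J ω, ⌊2 ^ th * rE F c g W ψ (cond F.p B True)
          zaH (eL (hdt2 F c g₂ w (w - w₀) 3 D q₀ q sg ψH₂ Ht hD) w W (g₂ 0 + q₁)) ω⌋))
        ⌊Real.exp (ρ * J / 2)⌋₊ (1 / 2 ^ 39)) := by
  refine Bas.mono 0 (nocov_cls hX hal hc0 hθ hx₀ h1 hN hc₁) ?_
  intro J _ F A hA B hBA hcB x e₀ sg w₀ w W b a' g₁ g₂ g gb g' gT kG M v v' e p U ψ₁ ψ₂ ψ ψ' Sv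
    ψH₁ ψH₂ ψH ψH' Ga Gc G' Ha Hc H' T TH Ht hD q q₀ q₁ s Mg H NN hw₀ N₃ C n6 Va za zaH hza u th x₁
    u1 u2 t1 t2 t3
  have hreh := reh_y hD H NN hw₀ N₃ C n6 hza (z := zaH) (fun _ _ h => h)
  have hB : ∀ ω, 0 < cond F.p B True ω → B ω := fun ω hω =>
    of_eq_true ((cond_pos_iff F.isLaw.nonneg B True ω).1 hω).2
  refine hA B hBA hcB c g W x e₀ 4 u ψ ψH rfl H.hA.wf.fr u1 u2 _ th x₁ (fun ω hω => ?_) t2 t3 _
    (fun y => y) _ ?_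
  · refine (re_near hreh hB hω).trans ?_
    rw [div_le_div_iff₀ (by positivity) (by positivity), one_mul, ← pow_add]
    exact two_le (by omega)
  · have h2 : 0 ≤ ρ * J / 2 := by positivity
    have h3 : 1 ≤ Real.exp (ρ * J / 2) := Real.one_le_exp h2
    have h4 : (1 : ℝ) ≤ ⌊Real.exp (ρ * J / 2)⌋₊ := by
      have h7 : 1 ≤ ⌊Real.exp (ρ * J / 2)⌋₊ := Nat.le_floor (by push_cast; exact h3)
      exact_mod_cast h7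
    have h5 : Real.log ⌊Real.exp (ρ * J / 2)⌋₊ ≤ ρ * J / 2 := by
      rw [Real.log_le_iff_le_exp (by linarith)]
      exact Nat.floor_le (Real.exp_pos _).le
    refine h5.trans ?_
    have h6 := mul_le_mul_of_nonneg_right hρ (Nat.cast_nonneg (α := ℝ) J)
    linarith

end Pool.TY12
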