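import Pool.Agent.H90.D2.Hhd
import Pool.Agent.H31.D2.P8y3

/-!
# The tie cell `(1,k,k;k+1)`, `k > 2`: the position of the first coordinate

`yc_few`: the cell of the position of the first coordinate from the exact time and the digits of the
position. `full_r`, `up_r`: the position given a deep record, given its first digits. `ufew_dn`: the
digits of the time and of the position from a later record (as `HbG.ufew`).
-/

set_option autoImplicit false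

namespace Pool.TY12

open Finset Real MvPolynomial
open Pool.Agent.H49.Ent Pool.Agent.H32.Dense Pool.STK Pool.KA Pool.KSAT Pool.K2S Pool.PB Pool.S6C
open Pool.GEN Pool.CHT Pool.CHX Pool.LA91
open Pool.D2F Pool.D2Z Pool.D2F2 Pool.D2N
open Pool.D2R (dd hs co co_slam)
open Pool.OWN68 (tw uw uw_abs)
open Pool.KPO (uw_two yc)

variable {m J : ℕ}

/-- The exact time, the digits of the position and the own data give the cell of the position of the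
first coordinate. -/
theorem yc_few {F : Fam m J} {c : ℕ → Fin m} {D w₀ w W sg q q₀ R k₂ e₂ k e₀ : ℕ} {g₂ g : ℕ → ℕ}
    {B : F.Ω → Prop} {ψ₂ ψ Sv : PtT F → ℕ → Option (Fin m) → ℝ}
    {ψH₂ ψH : LnT F → ℕ → Option (Fin m) → ℝ} {Ht : LnT F → MvPolynomial (Option (Fin m)) ℝ}
    (hD : ∀ s, (Ht s).totalDegree ≤ D) (hw : w ≤ W) (hW : W ≤ J)
    (h₂ : WFr F c 4 w k₂ e₂ g₂ B ψ₂ ψH₂ Sv) (h : WFr F c 4 W k e₀ g B ψ ψH Sv)
    (hq0 : g₂ 0 + q₀ ≤ g 0 + R) (hRJ : g 0 + R ≤ J)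
    {P : F.Ω → ℝ} {ζ : Type} {z : LnT F → ζ} {ω ω' : F.Ω}
    (eψ : ψ (ptr F J ω) = ψ (ptr F J ω')) (eψ₂ : ψH₂ (slam F w ω) = ψH₂ (slam F w ω'))
    (eT : F.T ω = F.T ω') (ez : z (slam F W ω) = z (slam F W ω'))
    (eV : cV (hdt2 F c g₂ w (w - w₀) 3 D q₀ q sg ψH₂ Ht hD) w ω =
      cV (hdt2 F c g₂ w (w - w₀) 3 D q₀ q sg ψH₂ Ht hD) w ω')
    (ey : ⌊2 ^ R * yr F c g W ψ P z ω⌋ = ⌊2 ^ R * yr F c g W ψ P z ω'⌋) :
    |yc (hdt2 F c g₂ w (w - w₀) 3 D q₀ q sg ψH₂ Ht hD) w W ω -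
      yc (hdt2 F c g₂ w (w - w₀) 3 D q₀ q sg ψH₂ Ht hD) w W ω'| ≤ ((5 : ℕ) : ℤ) := by
  obtain ⟨d, hd⟩ : ∃ d, d = hdt2 F c g₂ w (w - w₀) 3 D q₀ q sg ψH₂ Ht hD := ⟨_, rfl⟩
  have hSV : d.SV 0 = 2 ^ (g₂ 0 + q₀) := by
    rw [hd]
    change (2 : ℝ) ^ (g₂ 0 + Pool.D2F2.qv q₀ q 0) = _
    rw [Pool.D2F2.qv_zero]
  have hSE : d.SE 0 = 2 ^ (g₂ 0 + q₀) := by
    rw [hd]
    change (2 : ℝ) ^ (g₂ 0 + Pool.D2F2.qv q₀ q 0) = _
    rw [Pool.D2F2.qv_zero]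
  -- the position
  have hx1 : |hx F ω (some (c 0)) - hx F ω' (some (c 0))| * 2 ^ (g₂ 0 + q₀) ≤ 1 := by
    have a1 := (Int.abs_sub_lt_one_of_floor_eq_floor ey).le
    have a2 : yr F c g W ψ P z ω - yr F c g W ψ P z ω' =
        2 ^ g 0 * (hx F ω (some (c 0)) - hx F ω' (some (c 0))) := by
      have a3 : yr F c g W ψ P z ω - yr F c g W ψ P z ω' = yn F c g W ψ ω - yn F c g W ψ ω' := by
        unfold yr
        rw [ez]
        ring
      have a4 : ∀ ν : F.Ω, hx F ν (some (c 0)) = (F.X J ν (c 0) : ℝ) / 2 ^ J := fun _ => rfl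
      rw [a3, yn_eq h.fr.dep, yn_eq h.fr.dep, eψ, eT, a4, a4]
      ring
    rw [← mul_sub, a2, ← mul_assoc, abs_mul, abs_of_pos (by positivity)] at a1
    refine le_trans ?_ a1
    rw [mul_comm, ← pow_add]
    exact mul_le_mul_of_nonneg_right (two_le (by omega)) (abs_nonneg _)
  have hx2 : |bt F ω (some (c 0)) - bt F ω' (some (c 0))| * 2 ^ (g₂ 0 + q₀) ≤ 3 := by
    have b1 := hx_some F ω (c 0)
    have b2 := hx_some F ω' (c 0)
    have b3 : |bt F ω (some (c 0)) - bt F ω' (some (c 0))| ≤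
        |hx F ω (some (c 0)) - hx F ω' (some (c 0))| + 2 * (1 / 2 ^ J) := by
      have b4 := le_abs_self (hx F ω (some (c 0)) - hx F ω' (some (c 0)))
      have b5 := neg_abs_le (hx F ω (some (c 0)) - hx F ω' (some (c 0)))
      rw [abs_le] at b1 b2 ⊢
      constructor <;> linarith [b1.1, b1.2, b2.1, b2.2]
    have b4 : 1 / (2 : ℝ) ^ J * 2 ^ (g₂ 0 + q₀) ≤ 1 := by
      rw [one_div_mul_eq_div, div_le_one (by positivity)]
      exact two_le (by omega)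
    have b5 := mul_le_mul_of_nonneg_right b3 (by positivity : (0 : ℝ) ≤ 2 ^ (g₂ 0 + q₀))
    rw [add_mul, mul_assoc 2] at b5
    linarith
  have hv : |d.v w 0 ω - d.v w 0 ω'| * 2 ^ (g₂ 0 + q₀) ≤ 3 := by
    have c1 : d.v w 0 ω' - d.v w 0 ω = (bt F ω' - bt F ω) (some (c 0)) -
        if 0 < 3 then cv (ψH₂ (slam F w ω) 0) (bt F ω' - bt F ω) else 0 := by
      rw [hd]
      exact hdt_dv (F := F) (q := q) (sg := sg) (g := g₂) (n := w - w₀) (hD := hD) (r := 3)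
        (c := c) (hw.trans hW) 0 eψ₂
    have c2 : cv (ψH₂ (slam F w ω) 0) (bt F ω' - bt F ω) = 0 := by
      rw [cv_eq (c := c) (i := 0) (fun a ha => absurd ha (Nat.not_lt_zero a)) (h₂.fr.depH _ 0),
        Finset.sum_range_zero, add_zero]
      have c3 : (bt F ω' - bt F ω) none = F.t ω' - F.t ω := rfl
      have c4 : F.t ω' = F.t ω := by
        unfold Fam.t
        rw [eT]
      rw [c3, c4, sub_self, mul_zero]
    rw [if_pos (by norm_num), c2, sub_zero, Pi.sub_apply] at c1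
    rw [abs_sub_comm, c1, abs_sub_comm]
    exact hx2
  -- the velocity
  have he : |d.e w 0 ω - d.e w 0 ω'| * 2 ^ (g₂ 0 + q₀) ≤ 1 := by
    have e1 := fl_one (s := d.SE 0) (by rw [hSE]; positivity) (hd ▸ eV)
    rw [hSE, mul_comm] at e1
    exact e1
  -- the cell
  have huW : uw F W ω = uw F W ω' := by
    unfold uw tw
    rw [eT]
  have huw : uw F w ω = uw F w ω' := by
    unfold uw tw
    rw [eT]
  have hT1 : (slam F W ω).2.2 = (slam F W ω').2.2 := by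
    show F.T1 W ω = F.T1 W ω'
    unfold Fam.T1
    rw [eT]
  have ev : ∀ ν : F.Ω, (d.P 0 (slam F w ν)).eval (u0 W w (slam F W ν).2.2) =
      d.v w 0 ν - d.e w 0 ν * (1 / 2 ^ (W - w) * uw F W ν) := fun ν => by
    have p1 := eval_one (d.P1 0 (slam F w ν)) (uw F w ν)
    have p2 := eval_one (d.P1 0 (slam F w ν)) (u0 W w (slam F W ν).2.2)
    have p3 := uw_two F hw hW ν
    have p4 : d.v w 0 ν = (d.P 0 (slam F w ν)).coeff 0 + d.e w 0 ν * uw F w ν := p1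
    have p5 : (d.P 0 (slam F w ν)).eval (u0 W w (slam F W ν).2.2) =
      (d.P 0 (slam F w ν)).coeff 0 + d.e w 0 ν * u0 W w (slam F W ν).2.2 := p2
    rw [p5, p4]
    linear_combination (d.e w 0 ν) * p3
  rw [← hd]
  unfold yc
  refine Pool.OWN68.floor_sub_le ?_
  rw [ev, ev, hSV, ← huW]
  have h5 : |1 / 2 ^ (W - w) * uw F W ω| ≤ 1 := by
    rw [abs_mul, abs_of_pos (by positivity : (0 : ℝ) < 1 / 2 ^ (W - w))]
    have h6 : (1 : ℝ) / 2 ^ (W - w) ≤ 1 := by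
      rw [div_le_one (by positivity)]
      exact one_le_pow₀ (by norm_num)
    exact mul_le_one₀ h6 (abs_nonneg _) (uw_abs F W ω)
  have e9 : (2 : ℝ) ^ (g₂ 0 + q₀) * (d.v w 0 ω - d.e w 0 ω * (1 / 2 ^ (W - w) * uw F W ω)) -
      2 ^ (g₂ 0 + q₀) * (d.v w 0 ω' - d.e w 0 ω' * (1 / 2 ^ (W - w) * uw F W ω)) =
      (d.v w 0 ω - d.v w 0 ω') * 2 ^ (g₂ 0 + q₀) -
      (d.e w 0 ω - d.e w 0 ω') * 2 ^ (g₂ 0 + q₀) * (1 / 2 ^ (W - w) * uw F W ω) := by ring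
  rw [e9]
  refine (abs_sub _ _).trans ?_
  have k1 : |(d.v w 0 ω - d.v w 0 ω') * 2 ^ (g₂ 0 + q₀)| ≤ 3 := by
    rw [abs_mul, abs_of_pos (by positivity : (0 : ℝ) < 2 ^ (g₂ 0 + q₀))]
    exact hv
  have k2 : |(d.e w 0 ω - d.e w 0 ω') * 2 ^ (g₂ 0 + q₀) * (1 / 2 ^ (W - w) * uw F W ω)| ≤ 1 := by
    rw [abs_mul]
    refine mul_le_one₀ ?_ (abs_nonneg _) h5
    rw [abs_mul, abs_of_pos (by positivity : (0 : ℝ) < 2 ^ (g₂ 0 + q₀))]
    exact he
  push_cast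
  linarith

/-- **The position behind a deep record is full.** -/
theorem full_r {F : Fam m J} {P : F.Ω → ℝ} (hp : IsLaw P) {c : ℕ → Fin m} {g : ℕ → ℕ}
    {W V R G : ℕ} (hRJ : g 0 + R ≤ J) {ψ : PtT F → ℕ → Option (Fin m) → ℝ}
    (hψ : ∀ y l, CvC c l (ψ y l)) {ζ ξ : Type} {z : LnT F → ζ} {zt : LnT F → ξ} {y yY : ℝ}
    (hzt : ∀ ω ω', 0 < P ω → 0 < P ω' → zt (slam F V ω) = zt (slam F V ω') →
      ψ (ptr F J ω) = ψ (ptr F J ω') ∧ z (slam F W ω) = z (slam F W ω'))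
    (hT : ((J - V : ℕ) : ℝ) * Real.log 2 - y ≤ CH P F.T (slam F V))
    (hY : ((J - G : ℕ) : ℝ) * Real.log 2 - yY ≤
      CH P (fun ω => F.X J ω (c 0)) (fun ω => (F.T ω, zt (slam F V ω)))) :
    (((J - V : ℕ) : ℝ) + ((J - G : ℕ) : ℝ) - ((J - (g 0 + R) : ℕ) : ℝ)) * Real.log 2 -
      (y + yY + 2 * Real.log 2) ≤
      CH P (fun ω => (⌊2 ^ R * yr F c g W ψ P z ω⌋, F.T ω)) (fun ω => zt (slam F V ω)) := by
  have h1 := CH_chain hp.nonneg (fun ω => ⌊2 ^ R * yr F c g W ψ P z ω⌋) F.T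
    (fun ω => zt (slam F V ω))
  have h2 : CH P F.T (slam F V) ≤ CH P F.T (fun ω => zt (slam F V ω)) :=
    CH_mono_cond hp.nonneg fun ω ω' _ _ e => by
      show zt (slam F V ω) = zt (slam F V ω')
      rw [show slam F V ω = slam F V ω' from e]
  have h5 := CH_le_add hp.nonneg (fun ω => F.X J ω (c 0))
    (fun ω => ⌊2 ^ R * yr F c g W ψ P z ω⌋) (fun ω => (F.T ω, zt (slam F V ω)))
  have h6 : CH P (fun ω => F.X J ω (c 0)) (fun ω => (⌊2 ^ R * yr F c g W ψ P z ω⌋,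
      (F.T ω, zt (slam F V ω)))) ≤ Real.log (2 * (2 ^ (J - (g 0 + R)) : ℕ) + 1) := by
    refine Pool.OWN68.CH_pair hp _ _ fun ω ω' hω hω' e => ?_
    simp only [Prod.mk.injEq] at e
    obtain ⟨k1, k2, k3⟩ := e
    obtain ⟨k4, k10⟩ := hzt ω ω' hω hω' k3
    have k5 : yr F c g W ψ P z ω - yr F c g W ψ P z ω' = yn F c g W ψ ω - yn F c g W ψ ω' := by
      unfold yr
      rw [k10]
      ring
    have k6 : yn F c g W ψ ω - yn F c g W ψ ω' =
        2 ^ g 0 / 2 ^ J * ((F.X J ω (c 0) : ℝ) - F.X J ω' (c 0)) := by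
      rw [yn_eq hψ, yn_eq hψ, k4, k2]
      ring
    have k7 := (Int.abs_sub_lt_one_of_floor_eq_floor k1).le
    rw [← mul_sub, k5, k6, ← mul_assoc, abs_mul, abs_of_pos (by positivity)] at k7
    have k8 : (2 : ℝ) ^ R * (2 ^ g 0 / 2 ^ J) = 1 / 2 ^ (J - (g 0 + R)) := by
      have : (2 : ℝ) ^ J = 2 ^ (g 0 + R) * 2 ^ (J - (g 0 + R)) := by
        rw [← pow_add]
        congr 1
        omega
      rw [this, pow_add]
      field_simp
    rw [k8, one_div_mul_eq_div, div_le_one (by positivity)] at k7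
    have k9 : |((F.X J ω (c 0) - F.X J ω' (c 0) : ℤ) : ℝ)| ≤
        (((2 ^ (J - (g 0 + R)) : ℕ) : ℤ) : ℝ) := by
      push_cast
      exact k7
    exact_mod_cast k9
  have h7 : Real.log (2 * (2 ^ (J - (g 0 + R)) : ℕ) + 1) ≤
      ((J - (g 0 + R) : ℕ) : ℝ) * Real.log 2 + 2 * Real.log 2 := by
    have k1 : (2 * ((2 ^ (J - (g 0 + R)) : ℕ) : ℝ) + 1) ≤ 2 ^ (J - (g 0 + R)) * 2 ^ 2 := by
      push_cast
      have : (1 : ℝ) ≤ 2 ^ (J - (g 0 + R)) := one_le_pow₀ (by norm_num)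
      linarith
    refine (Real.log_le_log (by positivity) k1).trans (le_of_eq ?_)
    rw [Real.log_mul (by positivity) (by positivity), Real.log_pow, Real.log_pow]
    push_cast
    ring
  have h8 : CH P (fun ω => ⌊2 ^ R * yr F c g W ψ P z ω⌋) (fun ω => (F.T ω, zt (slam F V ω))) =
      CH P (fun ω => ⌊2 ^ R * yr F c g W ψ P z ω⌋) (fun ω => (F.T ω, zt (slam F V ω))) := rfl
  nlinarith

/-- The position given its first digits. -/
theorem up_r {F : Fam m J} {P : F.Ω → ℝ} (hp : IsLaw P) {c : ℕ → Fin m} {g : ℕ → ℕ}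
    {W V R th : ℕ} (hR : th ≤ R) {ψ : PtT F → ℕ → Option (Fin m) → ℝ} {ζ ξ : Type}
    {z : LnT F → ζ} {u : F.Ω → ξ}
    (hu : ∀ ω ω', 0 < P ω → 0 < P ω' → u ω = u ω' → F.T1 V ω = F.T1 V ω' ∧
      ⌊2 ^ th * yr F c g W ψ P z ω⌋ = ⌊2 ^ th * yr F c g W ψ P z ω'⌋) :
    CH P (fun ω => (⌊2 ^ R * yr F c g W ψ P z ω⌋, F.T ω)) u ≤
      (((J - V : ℕ) : ℝ) + ((R - th : ℕ) : ℝ)) * Real.log 2 + 2 * Real.log 2 := by
  have h1 := CH_subadd hp.nonneg (fun ω => ⌊2 ^ R * yr F c g W ψ P z ω⌋) F.T u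
  have h2 : CH P F.T u ≤ ((J - V : ℕ) : ℝ) * Real.log 2 :=
    CH_T_le hp fun ω ω' a b e => (hu ω ω' a b e).1
  have h3 : CH P (fun ω => ⌊2 ^ R * yr F c g W ψ P z ω⌋) u ≤
      Real.log (2 * (2 ^ (R - th) : ℕ) + 1) := by
    refine Pool.OWN68.CH_pair hp _ _ fun ω ω' a b e => ?_
    have k1 := (Int.abs_sub_lt_one_of_floor_eq_floor (hu ω ω' a b e).2).le
    have k2 : |(2 : ℝ) ^ R * yr F c g W ψ P z ω - 2 ^ R * yr F c g W ψ P z ω'| ≤ 2 ^ (R - th) := by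
      have k3 : (2 : ℝ) ^ R = 2 ^ (R - th) * 2 ^ th := by
        rw [← pow_add]
        congr 1
        omega
      rw [k3, mul_assoc, mul_assoc, ← mul_sub, abs_mul, abs_of_pos (by positivity)]
      exact mul_le_of_le_one_right (by positivity) k1
    have k4 := abs_le.1 k2
    have g1 := Int.floor_le ((2 : ℝ) ^ R * yr F c g W ψ P z ω)
    have g2 := Int.lt_floor_add_one ((2 : ℝ) ^ R * yr F c g W ψ P z ω)
    have g3 := Int.floor_le ((2 : ℝ) ^ R * yr F c g W ψ P z ω')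
    have g4 := Int.lt_floor_add_one ((2 : ℝ) ^ R * yr F c g W ψ P z ω')
    have k5 : (⌊(2 : ℝ) ^ R * yr F c g W ψ P z ω⌋ : ℝ) <
        ((⌊(2 : ℝ) ^ R * yr F c g W ψ P z ω'⌋ + 2 ^ (R - th) + 1 : ℤ) : ℝ) := by
      push_cast
      linarith [k4.2]
    have k6 : (⌊(2 : ℝ) ^ R * yr F c g W ψ P z ω'⌋ : ℝ) <
        ((⌊(2 : ℝ) ^ R * yr F c g W ψ P z ω⌋ + 2 ^ (R - th) + 1 : ℤ) : ℝ) := by
      push_cast
      linarith [k4.1]
    have k7 := Int.cast_lt.1 k5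
    have k8 := Int.cast_lt.1 k6
    push_cast
    rw [abs_le]
    constructor <;> omega
  have h4 : Real.log (2 * (2 ^ (R - th) : ℕ) + 1) ≤
      ((R - th : ℕ) : ℝ) * Real.log 2 + 2 * Real.log 2 := by
    have k1 : (2 * ((2 ^ (R - th) : ℕ) : ℝ) + 1) ≤ 2 ^ (R - th) * 2 ^ 2 := by
      push_cast
      have : (1 : ℝ) ≤ 2 ^ (R - th) := one_le_pow₀ (by norm_num)
      linarith
    refine (Real.log_le_log (by positivity) k1).trans (le_of_eq ?_)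
    rw [Real.log_mul (by positivity) (by positivity), Real.log_pow, Real.log_pow]
    push_cast
    ring
  linarith

section

variable {F : Fam m J} {c : ℕ → Fin m} {D x e₀ sg w₀ w W b a' : ℕ}
    {g₁ g₂ g gb g' gT : ℕ → ℕ} {kG M v v' e p : ℕ} {U : ℝ} {B : F.Ω → Prop}
    {ψ₁ ψ₂ ψ ψ' Sv : PtT F → ℕ → Option (Fin m) → ℝ}
    {ψH₁ ψH₂ ψH ψH' : LnT F → ℕ → Option (Fin m) → ℝ}
    {Ga Gc G' : PtT F → ℕ → MvPolynomial (Option (Fin m)) ℝ}
    {Ha Hc H' : LnT F → ℕ → MvPolynomial (Option (Fin m)) ℝ}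
    {T : PtT F → ℕ → MvPolynomial (Option (Fin m)) ℝ}
    {TH : LnT F → ℕ → MvPolynomial (Option (Fin m)) ℝ}
    {Ht : LnT F → MvPolynomial (Option (Fin m)) ℝ}
    {Va Vb : Type} {za : PtT F → Va} {zaH : LnT F → Va} {zb : PtT F → Vb} {zbH : LnT F → Vb}

/-- The digits of the time and of the position are few bits over the later record. -/
theorem ufew_dn (H : HbG F c D x e₀ sg w₀ w W b a' g₁ g₂ g gb g' gT kG M v v' e p U B ψ₁ ψ₂ ψ ψ'
    Sv ψH₁ ψH₂ ψH ψH' Ga Gc G' Ha Hc H' T TH Ht) {s : ℕ}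
    (dn : ∀ l < 3, b + g l ≤ gb l + W + x) (dnj : ∀ l < 3, ∀ j < l, gb j + g l ≤ gb l + g j + x)
    (hs : 1 ≤ s) (hWb : W + s ≤ b)
    (h0 : g 0 + s ≤ gb 0 + x) (hJ : ∀ j < 3, e₀ + gb j ≤ J)
    (hz : Rcd F B W za zaH) (hzb : Rcd F B b zb zbH) {P : F.Ω → ℝ} (hp : IsLaw P)
    (hB : ∀ ω, 0 < P ω → B ω) :
    CH P (uB F c g W s ψ P zaH) (fun ω => zb (ptr F J ω)) ≤
      (127 * x + 198 : ℕ) * Real.log 2 := by
  have hbJ := H.hb.aJ
  have h1 : CH P (uB F c g W s ψ P zaH) (fun ω => zb (ptr F J ω)) ≤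
      CH P (fun ω => ⌊2 ^ s * tn F W ω⌋) (fun ω => zb (ptr F J ω)) +
      CH P (fun ω => ⌊2 ^ s * yr F c g W ψ P zaH ω⌋) (fun ω => zb (ptr F J ω)) :=
    CH_subadd hp.nonneg _ _ _
  have h2 : CH P (fun ω => ⌊2 ^ s * tn F W ω⌋) (fun ω => zb (ptr F J ω)) = 0 := by
    refine CH_eq_zero hp.nonneg fun ω ω' hω hω' e => ?_
    have h3 := (H.kzb (by omega) hz hzb (hB ω hω) (hB ω' hω') e).2.2.1
    rw [tn_floor hs (by omega), tn_floor hs (by omega), T1_le hWb hbJ h3,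
      T1_le (show W ≤ b by omega) hbJ h3]
  have h3 := CH_near hp (fun ω => 2 ^ s * yr F c g W ψ P zaH ω) (fun _ => 0)
    (fun ω => zb (ptr F J ω)) (fun y => rfv P (fun ω => zb (ptr F J ω)) (fun _ => ())
      (fun ω => 2 ^ s * yr F c g W ψ P zaH ω) y ()) (K := 2 ^ (127 * x + 194)) (by
      intro ω hω
      obtain ⟨ω₀, hω₀, e1, -, e2⟩ := rfv_spec (R := ℝ) (z := fun ω => zb (ptr F J ω))
        (e := fun _ : F.Ω => ()) hω
      have e2' := e2 (fun ω => 2 ^ s * yr F c g W ψ P zaH ω)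
      beta_reduce at e2' ⊢
      rw [zero_add, e2']
      obtain ⟨a1, a2, a3, a4, a5⟩ := H.kzb (by omega) hz hzb (hB ω₀ hω₀) (hB ω hω) e1
      have h4 := H.hA.ydig H.hb hJ (fun ω hω => (nr_two (H.hA.wf.nr ω hω) (H.hb.wf.nr ω hω)
        le_rfl le_rfl dn dnj).1) h0 (by omega) (hB ω₀ hω₀) (hB ω hω) a3 a4 a2 a1
      have h5 : zaH (slam F W ω) = zaH (slam F W ω₀) := by
        rw [← hz.cls ω (hB ω hω), ← hz.cls ω₀ (hB ω₀ hω₀), a5]
      have h6 : 2 ^ s * yr F c g W ψ P zaH ω - 2 ^ s * yr F c g W ψ P zaH ω₀ =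
          2 ^ s * yn F c g W ψ ω - 2 ^ s * yn F c g W ψ ω₀ := by
        unfold yr
        rw [h5]
        ring
      rw [h6]
      refine h4.trans ?_
      have h7 : Bz x + x = 127 * x + 193 := by
        unfold Bz Pool.D2N.Kf
        ring
      rw [h7]
      push_cast
      rw [pow_succ (2 : ℝ) (127 * x + 193)]
      have h8 : (2 : ℝ) ^ (13 * x + 8) ≤ 2 ^ (127 * x + 193) := two_le (by omega)
      linarith)
  have h4 : CH P (fun _ => ⌊(0 : ℝ)⌋) (fun ω => zb (ptr F J ω)) = 0 :=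
    CH_eq_zero hp.nonneg fun _ _ _ _ _ => rfl
  rw [h4] at h3
  have h5 := log_cells (127 * x + 194)
  have h6 : ((127 * x + 194 : ℕ) : ℝ) + 4 = ((127 * x + 198 : ℕ) : ℝ) := by
    push_cast
    ring
  rw [h6] at h5
  linarith

end

end Pool.TY12
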