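import Pool.Agent.H32.Dense.EntX

/-!
# Few given the own data and a coarse position

`th_red`: a function `b` of the own line is few given the own data `e`, the record `z` and a fine
position `y`; it is a function of the own data and of a deeper record `zt`; the position behind the
record `zt` is full. Then it is few given `e`, `z` and the digits `P` of the position which the deeper
record contains.
-/

set_option autoImplicit false

namespace Pool.TY12

open Finset Real
open Pool.Agent.H49.Ent Pool.Agent.H32.Dense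

/-- **The reduction of the position.** -/
theorem th_red {Ω B E Z Y Zt R P Z' : Type} [Fintype Ω] {p : Ω → ℝ} (hp : ∀ ω, 0 ≤ p ω)
    (b : Ω → B) (e : Ω → E) (z : Ω → Z) (y : Ω → Y) (zt : Ω → Zt) (r : Ω → R) (P : Ω → P)
    (z' : Ω → Z') {e₁ e₂ e₃ e₄ e₅ e₆ e₇ l : ℝ}
    (hz : Det p zt z) (hz' : Det p z' (fun ω => (r ω, zt ω)))
    (few : CH p b (fun ω => (e ω, (z ω, y ω))) ≤ e₁)
    (fn : CH p b (fun ω => (e ω, zt ω)) ≤ e₂)
    (full : l - e₃ ≤ CH p r zt)
    (free : CH p e zt ≤ CH p e z' + e₄)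
    (up : CH p r (fun ω => (e ω, (z ω, P ω))) ≤ l + e₅)
    (fy : CH p y (fun ω => (r ω, (e ω, z ω))) ≤ e₆)
    (fP : CH p P (fun ω => (e ω, zt ω)) ≤ e₇) :
    CH p b (fun ω => (e ω, (z ω, P ω))) ≤ e₁ + e₂ + e₃ + e₄ + e₅ + e₆ + e₇ := by
  -- given the position
  have h1 : CH p b (fun ω => (r ω, (e ω, (z ω, P ω)))) ≤ e₁ + e₆ := by
    have a1 := CH_le_add hp b y (fun ω => (r ω, (e ω, (z ω, P ω))))
    have a2 : CH p y (fun ω => (r ω, (e ω, (z ω, P ω)))) ≤ CH p y (fun ω => (r ω, (e ω, z ω))) :=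
      CH_mono_cond hp fun ω ω' _ _ h => by
        simp only [Prod.mk.injEq] at h ⊢
        tauto
    have a3 : CH p b (fun ω => (y ω, (r ω, (e ω, (z ω, P ω))))) ≤
        CH p b (fun ω => (e ω, (z ω, y ω))) :=
      CH_mono_cond hp fun ω ω' _ _ h => by
        simp only [Prod.mk.injEq] at h ⊢
        tauto
    linarith
  -- the chain
  have h2 : CH p b (fun ω => (e ω, (z ω, P ω))) + CH p r (fun ω => (b ω, (e ω, (z ω, P ω)))) =
      CH p r (fun ω => (e ω, (z ω, P ω))) + CH p b (fun ω => (r ω, (e ω, (z ω, P ω)))) := by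
    rw [← CH_chain hp r b (fun ω => (e ω, (z ω, P ω))),
      ← CH_chain hp b r (fun ω => (e ω, (z ω, P ω)))]
    exact CH_congr hp (fun ω ω' _ _ h => by
        simp only [Prod.mk.injEq] at h ⊢
        tauto) (fun ω ω' _ _ h => by
        simp only [Prod.mk.injEq] at h ⊢
        tauto) (fun _ _ _ _ h => h) (fun _ _ _ _ h => h)
  -- the position given the deeper record
  have h3 : CH p r (fun ω => ((b ω, P ω), (e ω, zt ω))) ≤
      CH p r (fun ω => (b ω, (e ω, (z ω, P ω)))) :=
    CH_mono_cond hp fun ω ω' a c h => by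
      simp only [Prod.mk.injEq] at h ⊢
      exact ⟨h.1.1, h.2.1, hz ω ω' a c h.2.2, h.1.2⟩
  have h4 : CH p r (fun ω => (e ω, zt ω)) ≤ (e₂ + e₇) + CH p r (fun ω => ((b ω, P ω), (e ω, zt ω))) := by
    have a1 := CH_le_add hp r (fun ω => (b ω, P ω)) (fun ω => (e ω, zt ω))
    have a2 := CH_subadd hp b P (fun ω => (e ω, zt ω))
    linarith
  have h5 : CH p r zt + CH p e (fun ω => (r ω, zt ω)) =
      CH p e zt + CH p r (fun ω => (e ω, zt ω)) := by
    have a1 := CH_chain hp e r zt
    have a2 := CH_chain hp r e zt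
    have a3 : CH p (fun ω => (e ω, r ω)) zt = CH p (fun ω => (r ω, e ω)) zt :=
      CH_congr hp (fun ω ω' _ _ h => by
        simp only [Prod.mk.injEq] at h ⊢
        tauto) (fun ω ω' _ _ h => by
        simp only [Prod.mk.injEq] at h ⊢
        tauto) (fun _ _ _ _ h => h) (fun _ _ _ _ h => h)
    linarith
  have h6 : CH p e z' ≤ CH p e (fun ω => (r ω, zt ω)) := CH_mono_cond hp hz'
  linarith

end Pool.TY12
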