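import Pool.Agent.H31.D2.Ry5
import Pool.Agent.H12.TY.Red

/-!
# The number of the own line from a deep record

`bR_two`: the numbers of two lines with near data. `fn_two`: two lines with the same own data and the
same deep frame. `fn_y`: the number of the own line is few bits over the own data and a deep record.
-/

set_option autoImplicit false

namespace Pool.TY12

open Finset Real MvPolynomial
open Pool.Agent.H49.Ent Pool.Agent.H32.Dense Pool.STK Pool.KA Pool.KSAT Pool.K2S Pool.PB Pool.S6C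
open Pool.GEN Pool.CHT Pool.CHX Pool.LA91
open Pool.D2F Pool.D2Z Pool.D2F2 Pool.D2N
open Pool.D2R (dd hs co co_slam)
open Pool.KPO (bY rE)

variable {m J : ℕ}

/-- The numbers of two lines with near data. -/
theorem bR_two {κ L B₀ : ℝ} (hκ : 0 ≤ κ) (hL : 1 ≤ L) {A A' V V' : Fin 2 → ℝ}
    {T T' y y' E E' t t' : ℝ} (hA : ∀ i, |A i - A' i| ≤ κ) (hA' : ∀ i, |A' i| ≤ L)
    (hV : ∀ i, |V i| ≤ L) (hVV : ∀ i, |V i - V' i| ≤ 3 * L * κ) (hT : |T| ≤ κ) (hT' : |T'| ≤ κ)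
    (hy : |y| ≤ B₀) (hy' : |y'| ≤ B₀) (hE : |E| ≤ L) (hE' : |E'| ≤ L) (ht : |t| ≤ 1 / 2)
    (ht' : |t'| ≤ 1 / 2) :
    |(∑ i, A i * V i + T * (y - E * t)) - (∑ i, A' i * V' i + T' * (y' - E' * t'))| ≤
      κ * (9 * L ^ 2 + 2 * B₀) := by
  have h1 : ∀ i, |A i * V i - A' i * V' i| ≤ κ * L + L * (3 * L * κ) := by
    intro i
    have e : A i * V i - A' i * V' i = (A i - A' i) * V i + A' i * (V i - V' i) := by ring
    rw [e]
    refine (abs_add_le _ _).trans (add_le_add ?_ ?_)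
    · rw [abs_mul]
      exact mul_le_mul (hA i) (hV i) (abs_nonneg _) hκ
    · rw [abs_mul]
      exact mul_le_mul (hA' i) (hVV i) (abs_nonneg _) (by linarith)
  have h2 : ∀ {T y E t : ℝ}, |T| ≤ κ → |y| ≤ B₀ → |E| ≤ L → |t| ≤ 1 / 2 →
      |T * (y - E * t)| ≤ κ * (B₀ + L * (1 / 2)) := by
    intro T y E t a1 a2 a3 a4
    rw [abs_mul]
    refine mul_le_mul a1 ((abs_sub _ _).trans (add_le_add a2 ?_)) (abs_nonneg _) hκ
    rw [abs_mul]
    exact mul_le_mul a3 a4 (abs_nonneg _) (by linarith)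
  have b0 := abs_le.1 (h1 0)
  have b1 := abs_le.1 (h1 1)
  have b2 := abs_le.1 (h2 hT hy hE ht)
  have b3 := abs_le.1 (h2 hT' hy' hE' ht')
  have b4 : κ * L ≤ κ * L ^ 2 := by
    refine mul_le_mul_of_nonneg_left ?_ hκ
    nlinarith
  rw [Fin.sum_univ_two, Fin.sum_univ_two, abs_le]
  constructor <;> nlinarith [b0.1, b0.2, b1.1, b1.2, b2.1, b2.2, b3.1, b3.2, b4]

section

variable {F : Fam m J} {c : ℕ → Fin m} {g g' gV : ℕ → ℕ}
  {W n D a' k k' e₀ e₁ n' s V nV Vw kV eV : ℕ} {ψ ψ' ψV : PtT F → ℕ → Option (Fin m) → ℝ}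
  {ψH ψH' ψHV : LnT F → ℕ → Option (Fin m) → ℝ} {Ht : LnT F → MvPolynomial (Option (Fin m)) ℝ}
  {B : F.Ω → Prop} {ζ ε : Type} {z : LnT F → ζ} {e : LnT F → ε} {δ δ₁ δ' Kn L K B₀ : ℝ}

/-- **Two lines with the same own data and the same deep frame.** -/
theorem fn_two
    (H : ReH F c g g' W n D a' k k' e₀ e₁ n' s V ψ ψ' ψH ψH' Ht B z e δ δ₁ δ' Kn L K B₀)
    (hV : FrOK F c nV Vw kV eV gV B ψV ψHV) (hnV : 3 ≤ nV)
    (nearV : ∀ ω, B ω → Nc c g W 3 Kn (ψ (ptr F J ω)) (ψV (ptr F J ω))) {κ δV : ℝ}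
    (hκ : K / 2 ^ s ≤ κ)
    (deepV : ∀ i, 1 ≤ i → i ≤ 2 → (2 : ℝ) ^ g i * (1 / 2 ^ W * (2 ^ (Vw + kV) / 2 ^ gV i)) ≤ δV)
    (smV : 2 * (δV * (1 + Kn) ^ 3) ≤ κ) (hT : ∀ ω, B ω → |Tn F c g W n ψH Ht ω| ≤ κ)
    {P : F.Ω → ℝ} (hB : ∀ ω, 0 < P ω → B ω) {ω ω' : F.Ω} (hω : 0 < P ω) (hω' : 0 < P ω')
    (ez : z (slam F W ω) = z (slam F W ω')) (ee : e (slam F W ω) = e (slam F W ω'))
    (eψ : ψV (ptr F J ω) = ψV (ptr F J ω')) :
    |bY F c g W n ψ ψH Ht P z ω - bY F c g W n ψ ψH Ht P z ω'| ≤ κ * (9 * L ^ 2 + 2 * B₀) := by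
  have hb := hB ω hω
  have hb' := hB ω' hω'
  have hL := H.hL
  have hK := H.hK
  have hκ0 : 0 ≤ κ := le_trans (div_nonneg (by linarith) (by positivity)) hκ
  have hψ := (H.zv ω ω' hb hb' ez).1
  have hE := (H.nE ω ω' hb hb' ez ee).trans hκ
  have hEE : ∀ ν, B ν → ∀ j ≤ 3, |Xn F c g W ψ ν j| ≤ L := fun ν hν j hj =>
    (Xn_le H.fr hν hj).trans H.kL
  unfold bY bR
  refine bR_two hκ0 hL (fun i => ?_) (fun i => ?_) (fun i => ?_) (fun i => ?_) (hT ω hb)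
    (hT ω' hb') (yr_abs H hB hω) (yr_abs H hB hω') (hEE ω hb 1 (by norm_num))
    (hEE ω' hb' 1 (by norm_num)) (tn_abs F W ω) (tn_abs F W ω')
  · have h1 := (H.nG ω ω' hb hb' ez ee (i.1 + 1) (by omega) 1 (Or.inl ⟨rfl, by omega⟩)).trans hκ
    have e1 : An F c g W n ψH Ht ω i - An F c g W n ψH Ht ω' i = 1 / 2 *
        (2 ^ g 3 / 2 ^ g (i.1 + 1) * (4 * ((gq F c g W n ψH Ht (slam F W ω) (i.1 + 1)).coeff 1 -
          (gq F c g W n ψH Ht (slam F W ω') (i.1 + 1)).coeff 1))) := by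
      unfold An Ac
      ring
    rw [e1, abs_mul, abs_of_pos (by norm_num : (0 : ℝ) < 1 / 2)]
    linarith
  · have h1 := H.big ω' hb' (i.1 + 1) (by omega) 1 (Or.inl rfl)
    have e1 : An F c g W n ψH Ht ω' i = 1 / 2 *
        (2 ^ g 3 / 2 ^ g (i.1 + 1) *
          (4 * (gq F c g W n ψH Ht (slam F W ω') (i.1 + 1)).coeff 1)) := by
      unfold An Ac
      ring
    rw [e1, abs_mul, abs_of_pos (by norm_num : (0 : ℝ) < 1 / 2)]
    linarith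
  · exact hEE ω hb (i.1 + 2) (by omega)
  · have h1 := (ms_own H.hc H.fr hV hnV H.hKn deepV hb (nearV ω hb) (i := i.1) (by omega)).trans smV
    have h2 := (ms_own H.hc H.fr hV hnV H.hKn deepV hb' (nearV ω' hb') (i := i.1)
      (by omega)).trans smV
    have h3 := (ms_le H.hc H.fr hV H.hKn (nearV ω hb) (i := i.1) (by omega) 1).trans H.KL
    rw [← hψ, ← eψ] at h2
    have h4 : |Ms c g W (ψ (ptr F J ω)) (ψV (ptr F J ω)) i.1 1 *
        (Xn F c g W ψ ω 1 - Xn F c g W ψ ω' 1)| ≤ L * κ := by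
      rw [abs_mul]
      exact mul_le_mul h3 hE (abs_nonneg _) (by linarith)
    have e1 : Vn F c g W ψ ω i - Vn F c g W ψ ω' i =
        (Xn F c g W ψ ω (i.1 + 2) - (Ms c g W (ψ (ptr F J ω)) (ψV (ptr F J ω)) i.1 0 +
          Ms c g W (ψ (ptr F J ω)) (ψV (ptr F J ω)) i.1 1 * Xn F c g W ψ ω 1)) -
        (Xn F c g W ψ ω' (i.1 + 2) - (Ms c g W (ψ (ptr F J ω)) (ψV (ptr F J ω)) i.1 0 +
          Ms c g W (ψ (ptr F J ω)) (ψV (ptr F J ω)) i.1 1 * Xn F c g W ψ ω' 1)) +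
        Ms c g W (ψ (ptr F J ω)) (ψV (ptr F J ω)) i.1 1 *
          (Xn F c g W ψ ω 1 - Xn F c g W ψ ω' 1) := by
      unfold Vn
      ring
    rw [e1]
    have h5 : κ ≤ L * κ := le_mul_of_one_le_left hκ0 hL
    rw [abs_le] at h1 h2 h4 ⊢
    constructor <;> linarith [h1.1, h1.2, h2.1, h2.2, h4.1, h4.2]

end

end Pool.TY12
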