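import Pool.Agent.H12.TY.Few
import Pool.Agent.H12.TY.Fn
import Pool.Agent.H31.D2.Ry6

/-!
# The tie cell `(1,k,k;k+1)`, `k > 2`: few given the digits of the position at one scale

`few_th`: the hypotheses `few₁`, `few₂` of `hop_blk_y` from the number given the cell of the position
(`few_bY`), the record of the window `W + th` and the freeness of the own data.
-/

set_option autoImplicit false

namespace Pool.TY12

open Finset Real MvPolynomial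
open Pool.Agent.H49.Ent Pool.Agent.H32.Dense Pool.STK Pool.KA Pool.KSAT Pool.K2S Pool.PB Pool.S6C
open Pool.GEN Pool.CHT Pool.CHX Pool.LA91
open Pool.D2F Pool.D2Z Pool.D2F2 Pool.D2N
open Pool.D2R (dd hs co co_slam)
open Pool.KPO (bY rE yc BkM CoY reh_y)

variable {m J : ℕ}

/-- The numbers of the deep frame. -/
theorem fn_num {x s : ℕ} : (2 : ℝ) ^ s * (2 ^ (150 * x) / 2 ^ s * (9 * (2 ^ (150 * x)) ^ 2 +
    2 * 2 ^ Bz x)) ≤ 2 ^ (450 * x + Bz x + 4) := by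
  have e1 : (2 : ℝ) ^ s * (2 ^ (150 * x) / 2 ^ s * (9 * (2 ^ (150 * x)) ^ 2 + 2 * 2 ^ Bz x)) =
      2 ^ (150 * x) * (9 * (2 ^ (150 * x)) ^ 2 + 2 * 2 ^ Bz x) := by
    field_simp
  obtain ⟨L, hL⟩ : ∃ L : ℝ, L = 2 ^ (150 * x) := ⟨_, rfl⟩
  obtain ⟨Z, hZ⟩ : ∃ Z : ℝ, Z = 2 ^ Bz x := ⟨_, rfl⟩
  have hL1 : 1 ≤ L := by
    rw [hL]
    exact one_le_pow₀ (by norm_num)
  have hZ1 : 1 ≤ Z := by
    rw [hZ]
    exact one_le_pow₀ (by norm_num)
  have e2 : (2 : ℝ) ^ (450 * x + Bz x + 4) = L ^ 3 * Z * 16 := by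
    rw [hL, hZ, ← pow_mul, pow_add, pow_add]
    norm_num
    ring_nf
  rw [e1, e2, ← hL, ← hZ]
  have h2 : 1 ≤ L ^ 2 := one_le_pow₀ hL1
  have h3 : 9 * L ^ 2 + 2 * Z ≤ L ^ 2 * Z * 16 := by nlinarith
  calc L * (9 * L ^ 2 + 2 * Z) ≤ L * (L ^ 2 * Z * 16) :=
        mul_le_mul_of_nonneg_left h3 (by linarith)
    _ = L ^ 3 * Z * 16 := by ring

/-- Cells: a bound. -/
theorem cells_le (n : ℕ) : Real.log (2 * (2 ^ n + 1 : ℕ) + 1) ≤ (n + 4) * Real.log 2 := by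
  refine le_trans (Real.log_le_log (by positivity) ?_) (log_cells n)
  push_cast
  have : (0 : ℝ) < 2 ^ n := by positivity
  linarith

section

variable {F : Fam m J} {c : ℕ → Fin m} {D x e₀ sg w₀ w W b a' : ℕ}
    {g₁ g₂ g gb g' gT : ℕ → ℕ} {kG M v v' e p : ℕ} {U : ℝ} {B : F.Ω → Prop}
    {ψ₁ ψ₂ ψ ψ' Sv : PtT F → ℕ → Option (Fin m) → ℝ}
    {ψH₁ ψH₂ ψH ψH' : LnT F → ℕ → Option (Fin m) → ℝ}
    {Ga Gc G' : PtT F → ℕ → MvPolynomial (Option (Fin m)) ℝ}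
    {Ha Hc H' : LnT F → ℕ → MvPolynomial (Option (Fin m)) ℝ}
    {T : PtT F → ℕ → MvPolynomial (Option (Fin m)) ℝ}
    {TH : LnT F → ℕ → MvPolynomial (Option (Fin m)) ℝ}
    {Ht : LnT F → MvPolynomial (Option (Fin m)) ℝ}
    {V : ℕ} {gV : ℕ → ℕ} {ψV : PtT F → ℕ → Option (Fin m) → ℝ}
    {ψHV : LnT F → ℕ → Option (Fin m) → ℝ}
    {GV : PtT F → ℕ → MvPolynomial (Option (Fin m)) ℝ}
    {HV : LnT F → ℕ → MvPolynomial (Option (Fin m)) ℝ}
    {Va Vt Vb : Type} {za : PtT F → Va} {zaH : LnT F → Va} {zt : PtT F → Vt} {ztH : LnT F → Vt}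
    {zb : PtT F → Vb} {zbH : LnT F → Vb} {q q₀ q₁ s s' Mg Mg' th R : ℕ}

/-- **Few given the digits of the position at one scale.** -/
theorem few_th (hD : ∀ s, (Ht s).totalDegree ≤ D)
    (H : HbG F c D x e₀ sg w₀ w W b a' g₁ g₂ g gb g' gT kG M v v' e p U B ψ₁ ψ₂ ψ ψ'
    Sv ψH₁ ψH₂ ψH ψH' Ga Gc G' Ha Hc H' T TH Ht) (N : HpN x s Mg w₀ W b a' g₁ g gb g')
    (hw₀ : w₀ ≤ w) (N₃ : BkM x s sg q q₀ q₁ w W g₂ g)
    (C : CoY F c s x sg w₀ w W g₂ g ψH₂ ψH Ht B) (n6 : ∀ j < 3, e₀ + g j + (s + 3) ≤ J)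
    -- the window `V = W + th`
    (hV : Blw F c V x e₀ gV B ψV ψHV Sv GV HV) (NV : HpN x s' Mg' w₀ W V a' g₁ g gV g')
    (hs : s' ≤ s) (hth : 1 ≤ th) (hVt : V = W + th) (hg0 : gV 0 ≤ g 0 + th + x)
    (hR : th ≤ R) (hRb : W + R ≤ b) (hRg : g 0 + R ≤ gb 0 + x) (hRJ : g 0 + R ≤ J)
    (hq0 : g₂ 0 + q₀ ≤ g 0 + R) (hJb : ∀ j < 3, e₀ + gb j ≤ J) (hJV : ∀ j < 3, e₀ + gV j ≤ J)
    (hza : Rcd F B W za zaH) (hzt : Rcd F B V zt ztH) (hzb : Rcd F B b zb zbH) {P : F.Ω → ℝ}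
    (hp : IsLaw P) (hB : ∀ ω, 0 < P ω → B ω) {y yY y₁ E₁ : ℝ}
    (hT : (J : ℝ) * Real.log 2 - y ≤ CH P F.T (fun ω => (F.l ω, F.Z ω)))
    (hY : ((J - gV 0 : ℕ) : ℝ) * Real.log 2 - yY ≤
      CH P (fun ω => F.X J ω (c 0)) (fun ω => (F.T ω, ztH (slam F V ω))))
    (free : CH P (fun ω => (eC (hdt2 F c g₂ w (w - w₀) 3 D q₀ q sg ψH₂ Ht hD) w (g₂ 0 + q₁) ω,
        cG (hdt2 F c g₂ w (w - w₀) 3 D q₀ q sg ψH₂ Ht hD) w ω))
        (fun ω => (za (ptr F J ω), F.W ω)) ≤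
      CH P (fun ω => (eC (hdt2 F c g₂ w (w - w₀) 3 D q₀ q sg ψH₂ Ht hD) w (g₂ 0 + q₁) ω,
        cG (hdt2 F c g₂ w (w - w₀) 3 D q₀ q sg ψH₂ Ht hD) w ω))
        (fun ω => (zb (ptr F J ω), F.W ω)) + y₁)
    (few : CH P (fun ω => ⌊2 ^ s' * bY F c g W (W - w₀) ψ ψH Ht P zaH ω⌋)
      (fun ω => (eL (hdt2 F c g₂ w (w - w₀) 3 D q₀ q sg ψH₂ Ht hD) w W (g₂ 0 + q₁) (slam F W ω),
        (zaH (slam F W ω), yc (hdt2 F c g₂ w (w - w₀) 3 D q₀ q sg ψH₂ Ht hD) w W ω))) ≤ E₁) :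
    CH P (fun ω => ⌊2 ^ s' * bY F c g W (W - w₀) ψ ψH Ht P zaH ω⌋)
      (fun ω => (eL (hdt2 F c g₂ w (w - w₀) 3 D q₀ q sg ψH₂ Ht hD) w W (g₂ 0 + q₁) (slam F W ω),
        (zaH (slam F W ω), Pool.D2N.cP th (tn F W) (yr F c g W ψ P zaH) ω))) ≤
      E₁ + 2 * y + yY + y₁ + (900 * x + 800 : ℕ) * Real.log 2 := by
  have hW := H.hA.aJ
  have hx := N.x1
  have hVJ := hV.aJ
  have hbJ := H.hb.aJ
  have hWV : W ≤ V := by omega
  have hVb : V ≤ b := by omega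
  have hwW := N₃.wW
  have hl2 : 0 ≤ Real.log 2 := Real.log_nonneg (by norm_num)
  have hTW := tm_ev hp hW hT
  have hTV := tm_ev hp hVJ hT
  -- the window `V` as the window of the visible record
  have H' : HbG F c D x e₀ sg w₀ w W V a' g₁ g₂ g gV g' gT kG M v v' e p U B ψ₁ ψ₂ ψ ψV
      Sv ψH₁ ψH₂ ψH ψHV Ga GV G' Ha HV H' T TH Ht := { H with hb := hV }
  have hreh := reh_y hD H N hw₀ N₃ C n6 hza (z := zaH) (fun _ _ h => h)
  obtain ⟨d, hd⟩ : ∃ d, d = hdt2 F c g₂ w (w - w₀) 3 D q₀ q sg ψH₂ Ht hD := ⟨_, rfl⟩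
  rw [← hd] at free few hreh ⊢
  have e1 : ∀ ω, eL d w W (g₂ 0 + q₁) (slam F W ω) = (eR d w ω, eC d w (g₂ 0 + q₁) ω) :=
    fun ω => eL_slam _ hwW hW _ ω
  -- the records
  have rA : ∀ ω ω', B ω → B ω' → zaH (slam F W ω) = zaH (slam F W ω') →
      za (ptr F J ω) = za (ptr F J ω') := fun ω ω' a b e => by
    rw [hza.cls ω a, hza.cls ω' b, e]
  have rT : ∀ ω ω', B ω → B ω' → ztH (slam F V ω) = ztH (slam F V ω') →
      zt (ptr F J ω) = zt (ptr F J ω') := fun ω ω' a b e => by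
    rw [hzt.cls ω a, hzt.cls ω' b, e]
  have rTA : ∀ ω ω', B ω → B ω' → ztH (slam F V ω) = ztH (slam F V ω') →
      zaH (slam F W ω) = zaH (slam F W ω') := fun ω ω' a b e => by
    have h1 := (H'.kzb hWV hza hzt a b (rT ω ω' a b e)).2.2.2.2
    rwa [hza.cls ω a, hza.cls ω' b] at h1
  have rBT : ∀ ω ω', B ω → B ω' → zb (ptr F J ω) = zb (ptr F J ω') →
      ztH (slam F V ω) = ztH (slam F V ω') := fun ω ω' a b e => by
    have h1 := hzb.det' hVb hbJ hzt.cls a b e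
    rwa [hzt.cls ω a, hzt.cls ω' b] at h1
  have kA : ∀ ω ω', B ω → B ω' → zaH (slam F W ω) = zaH (slam F W ω') →
      ψ (ptr F J ω) = ψ (ptr F J ω') ∧ ψH₂ (slam F w ω) = ψH₂ (slam F w ω') ∧
        F.T1 W ω = F.T1 W ω' := fun ω ω' a b e => by
    obtain ⟨a1, a2, a3, -⟩ := H.kza hwW hza a b (rA ω ω' a b e)
    exact ⟨a1, a2, a3⟩
  -- the number from the deep record
  have fn : CH P (fun ω => ⌊2 ^ s' * bY F c g W (W - w₀) ψ ψH Ht P zaH ω⌋)
      (fun ω => (eL d w W (g₂ 0 + q₁) (slam F W ω), ztH (slam F V ω))) ≤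
      (450 * x + Bz x + 8 : ℕ) * Real.log 2 := by
    refine le_trans (Pool.OWN68.CH_pair hp _ _ (D := 2 ^ (450 * x + Bz x + 4) + 1)
      fun ω ω' hω hω' ee => ?_) (le_trans (cells_le _) (le_of_eq (by push_cast; ring)))
    obtain ⟨ee, et⟩ := Prod.mk.inj ee
    have hb := hB ω hω
    have hb' := hB ω' hω'
    refine Pool.OWN68.floor_sub_le ?_
    have h1 := fn_two hreh hV.wf.fr (by norm_num) (fun ω hω => (nr_two (H.hA.wf.nr ω hω)
      (hV.wf.nr ω hω) le_rfl le_rfl NV.dn NV.dnj).1) (κ := 2 ^ (150 * x) / 2 ^ s')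
      (δV := 1 / 2 ^ (s' + 299 * x)) (div_le_div_of_nonneg_left (by positivity) (by positivity)
        (two_le hs)) (fun i i1 i2 => by
        have h2 := NV.dp i i1 i2
        rw [show (2 : ℝ) ^ g i * (1 / 2 ^ W * (2 ^ (V + x) / 2 ^ gV i)) =
          2 ^ (g i + (V + x)) / 2 ^ (W + gV i) by
          rw [pow_add (2 : ℝ) (g i), pow_add (2 : ℝ) W]
          field_simp]
        exact pq_le (by omega)) (by
        have h2 := pw3 x hx
        calc 2 * (1 / (2 : ℝ) ^ (s' + 299 * x) * (1 + 2 ^ (12 * x + 8)) ^ 3) ≤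
            2 * (1 / (2 : ℝ) ^ (s' + 299 * x) * 2 ^ (63 * x)) := by gcongr
          _ = 2 ^ (63 * x + 1) / 2 ^ (s' + 299 * x) := by
            rw [pow_succ]
            ring
          _ ≤ 2 ^ (150 * x) / 2 ^ s' := by
            rw [div_le_div_iff₀ (by positivity) (by positivity), ← pow_add, ← pow_add]
            exact two_le (by omega)) (fun ω hω => (C.tn hx hω).trans (by
        rw [div_le_div_iff₀ (by positivity) (by positivity), one_mul, ← pow_add]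
        exact two_le (by omega))) hB hω hω' (rTA ω ω' hb hb' et) ee
        (H'.kzb hWV hza hzt hb hb' (rT ω ω' hb hb' et)).2.1
    rw [← mul_sub, abs_mul, abs_of_pos (by positivity : (0 : ℝ) < 2 ^ s')]
    refine (mul_le_mul_of_nonneg_left h1 (by positivity)).trans ?_
    push_cast
    exact fn_num
  -- the position behind the deep record
  have full := full_r (z := zaH) hp hRJ H.hA.wf.fr.dep (fun ω ω' hω hω' e =>
    ⟨(kA ω ω' (hB ω hω) (hB ω' hω') (rTA ω ω' (hB ω hω) (hB ω' hω') e)).1,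
      rTA ω ω' (hB ω hω) (hB ω' hω') e⟩) hTV hY
  -- freeness
  have hcv : ∀ ω ω', eC d w (g₂ 0 + q₁) ω = eC d w (g₂ 0 + q₁) ω' → cV d w ω = cV d w ω' := by
    intro ω ω' e
    have h2 : d.SE 0 = (2 : ℝ) ^ (g₂ 0 + q₀) := by
      rw [hd]
      rfl
    have h3 := N₃.q01
    unfold cV
    rw [h2]
    exact Pool.D2N.fl_coarse (by omega) e
  have e3 : ∀ (S : Type) (Z : F.Ω → S),
      CH P (fun ω => eL d w W (g₂ 0 + q₁) (slam F W ω)) Z =
        CH P (fun ω => (eC d w (g₂ 0 + q₁) ω, cG d w ω)) Z := by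
    intro S Z
    simp only [e1]
    refine CH_congr hp.nonneg (fun ω ω' _ _ e => ?_) (fun ω ω' _ _ e => ?_)
      (fun _ _ _ _ e => e) (fun _ _ _ _ e => e)
    · obtain ⟨h2, -⟩ := Prod.mk.inj e
      obtain ⟨h3, h4⟩ := Prod.mk.inj h2
      exact Prod.ext h4 (Prod.ext_iff.1 h3).2
    · obtain ⟨h2, -⟩ := Prod.mk.inj e
      obtain ⟨h3, h4⟩ := Prod.mk.inj h2
      exact Prod.ext (Prod.ext (hcv ω ω' h3) h4) h3
  rw [← e3, ← e3] at free
  have hfree : CH P (fun ω => eL d w W (g₂ 0 + q₁) (slam F W ω)) (fun ω => ztH (slam F V ω)) ≤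
      CH P (fun ω => eL d w W (g₂ 0 + q₁) (slam F W ω))
        (fun ω => (uB F c g W R ψ P zaH ω, (zb (ptr F J ω), F.W ω))) +
      (y + y₁ + (127 * x + 198 : ℕ) * Real.log 2) := by
    have f1 : CH P (fun ω => eL d w W (g₂ 0 + q₁) (slam F W ω)) (fun ω => ztH (slam F V ω)) ≤
        CH P (fun ω => eL d w W (g₂ 0 + q₁) (slam F W ω)) (fun ω => za (ptr F J ω)) :=
      CH_mono_cond hp.nonneg fun ω ω' hω hω' e => rA ω ω' (hB ω hω) (hB ω' hω')
        (rTA ω ω' (hB ω hω) (hB ω' hω') e)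
    have f2 := CH_tm hp (z := fun ω => za (ptr F J ω))
      (e := fun ω => eL d w W (g₂ 0 + q₁) (slam F W ω)) hTW
      (fun ω ω' hω hω' e => (hza.tz (hB ω hω) (hB ω' hω') e).1) (fun ω ω' hω hω' e => by
        refine Prod.ext ?_ ?_
        · show eL d w W (g₂ 0 + q₁) (slam F W ω) = eL d w W (g₂ 0 + q₁) (slam F W ω')
          rw [show slam F W ω = slam F W ω' from e]
        · show za (ptr F J ω) = za (ptr F J ω')
          rw [hza.cls ω (hB ω hω), hza.cls ω' (hB ω' hω'), show slam F W ω = slam F W ω' from e])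
    have f3 : CH P (fun ω => eL d w W (g₂ 0 + q₁) (slam F W ω))
        (fun ω => (F.T ω, za (ptr F J ω))) ≤
        CH P (fun ω => eL d w W (g₂ 0 + q₁) (slam F W ω))
          (fun ω => (za (ptr F J ω), F.W ω)) :=
      CH_mono_cond hp.nonneg fun ω ω' hω hω' e => by
        obtain ⟨h1, h2⟩ := Prod.mk.inj e
        exact Prod.ext h2 (Prod.ext h1 (hza.tz (hB ω hω) (hB ω' hω') h2).2)
    have f5 := CH_le_add hp.nonneg (fun ω => eL d w W (g₂ 0 + q₁) (slam F W ω))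
      (uB F c g W R ψ P zaH) (fun ω => (zb (ptr F J ω), F.W ω))
    have f6 : CH P (uB F c g W R ψ P zaH) (fun ω => (zb (ptr F J ω), F.W ω)) ≤
        CH P (uB F c g W R ψ P zaH) (fun ω => zb (ptr F J ω)) :=
      CH_mono_cond hp.nonneg fun ω ω' _ _ e => (Prod.mk.inj e).1
    have f7 := ufew_dn H N.dn N.dnj (s := R) (hth.trans hR) hRb hRg hJb hza hzb hp hB
    linarith
  -- the first digits of the position
  have fP : CH P (Pool.D2N.cP th (tn F W) (yr F c g W ψ P zaH))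
      (fun ω => (eL d w W (g₂ 0 + q₁) (slam F W ω), ztH (slam F V ω))) ≤
      (127 * x + 198 : ℕ) * Real.log 2 := by
    have h1 := ufew_dn H' NV.dn NV.dnj (s := th) hth (by omega) (by
      have := NV.dn 0 (by norm_num)
      omega) hJV hza hzt hp hB
    refine le_trans ?_ h1
    have h2 : CH P (Pool.D2N.cP th (tn F W) (yr F c g W ψ P zaH))
        (fun ω => (eL d w W (g₂ 0 + q₁) (slam F W ω), ztH (slam F V ω))) ≤
        CH P (Pool.D2N.cP th (tn F W) (yr F c g W ψ P zaH)) (fun ω => zt (ptr F J ω)) :=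
      CH_mono_cond hp.nonneg fun ω ω' hω hω' e => rT ω ω' (hB ω hω) (hB ω' hω')
        (Prod.mk.inj e).2
    refine h2.trans (CH_mono_left hp.nonneg fun ω ω' _ _ e => ?_)
    obtain ⟨k1, k2⟩ := Prod.mk.inj (Prod.mk.inj e).1
    funext j
    unfold Pool.D2N.cP
    split_ifs
    · exact k1
    · exact k2
  have eP : ∀ ω ω', Pool.D2N.cP th (tn F W) (yr F c g W ψ P zaH) ω =
      Pool.D2N.cP th (tn F W) (yr F c g W ψ P zaH) ω' →
      ⌊2 ^ th * tn F W ω⌋ = ⌊2 ^ th * tn F W ω'⌋ ∧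
      ⌊2 ^ th * yr F c g W ψ P zaH ω⌋ = ⌊2 ^ th * yr F c g W ψ P zaH ω'⌋ := fun ω ω' e => by
    have h1 := congrFun e 0
    have h2 := congrFun e 1
    unfold Pool.D2N.cP at h1 h2
    rw [if_pos rfl, if_pos rfl] at h1
    rw [if_neg (by decide), if_neg (by decide)] at h2
    exact ⟨h1, h2⟩
  have up := up_r (V := V) (z := zaH) (ψ := ψ) (g := g) (W := W) (c := c) hp hR
    (u := fun ω => (eL d w W (g₂ 0 + q₁) (slam F W ω),
      (zaH (slam F W ω), Pool.D2N.cP th (tn F W) (yr F c g W ψ P zaH) ω)))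
    (fun ω ω' hω hω' ee => by
      simp only [Prod.mk.injEq] at ee
      obtain ⟨-, ez, ep⟩ := ee
      obtain ⟨k1, k2⟩ := eP ω ω' ep
      refine ⟨?_, k2⟩
      have k3 := (kA ω ω' (hB ω hω) (hB ω' hω') ez).2.2
      have hWt : W + th ≤ J := by omega
      rw [tn_floor hth hWt, tn_floor hth hWt, k3] at k1
      rw [hVt]
      omega)
  have fy : CH P (fun ω => yc d w W ω) (fun ω => ((⌊2 ^ R * yr F c g W ψ P zaH ω⌋, F.T ω),
      (eL d w W (g₂ 0 + q₁) (slam F W ω), zaH (slam F W ω)))) ≤ 4 * Real.log 2 := by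
    refine le_trans (Pool.OWN68.CH_pair hp _ _ (D := 5) fun ω ω' hω hω' ee => ?_) ?_
    · simp only [Prod.mk.injEq] at ee
      obtain ⟨⟨k1, k2⟩, k3, k4⟩ := ee
      obtain ⟨a1, a2, -⟩ := kA ω ω' (hB ω hω) (hB ω' hω') k4
      rw [e1, e1] at k3
      have k5 := (Prod.ext_iff.1 (Prod.ext_iff.1 k3).1).1
      rw [hd] at k5 ⊢
      exact yc_few hD hwW hW H.h₂ H.hA.wf hq0 hRJ a1 a2 k2 k4 k5 k1
    · have : (4 : ℝ) * Real.log 2 = Real.log (2 ^ 4) := by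
        rw [Real.log_pow]
        push_cast
        ring
      rw [this]
      refine Real.log_le_log (by positivity) ?_
      norm_num
  have h9 := th_red hp.nonneg (fun ω => ⌊2 ^ s' * bY F c g W (W - w₀) ψ ψH Ht P zaH ω⌋)
    (fun ω => eL d w W (g₂ 0 + q₁) (slam F W ω)) (fun ω => zaH (slam F W ω))
    (fun ω => yc d w W ω) (fun ω => ztH (slam F V ω))
    (fun ω => (⌊2 ^ R * yr F c g W ψ P zaH ω⌋, F.T ω))
    (Pool.D2N.cP th (tn F W) (yr F c g W ψ P zaH))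
    (fun ω => (uB F c g W R ψ P zaH ω, (zb (ptr F J ω), F.W ω)))
    (l := (((J - V : ℕ) : ℝ) + ((J - gV 0 : ℕ) : ℝ) - ((J - (g 0 + R) : ℕ) : ℝ)) * Real.log 2)
    (e₅ := ((x : ℝ) + 2) * Real.log 2)
    (fun ω ω' hω hω' e => rTA ω ω' (hB ω hω) (hB ω' hω') e)
    (fun ω ω' hω hω' ee => by
      simp only [Prod.mk.injEq] at ee
      obtain ⟨k1, k2, k3⟩ := ee
      refine Prod.ext (Prod.ext (Prod.ext_iff.1 k1).2 (Prod.ext_iff.1 k3).1) ?_
      exact rBT ω ω' (hB ω hω) (hB ω' hω') k2)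
    few fn full hfree (up.trans (by
      have k1 : ((R - th : ℕ) : ℝ) ≤ ((J - gV 0 : ℕ) : ℝ) - ((J - (g 0 + R) : ℕ) : ℝ) + x := by
        have k2 : (J : ℝ) - gV 0 ≤ ((J - gV 0 : ℕ) : ℝ) := by
          have : J ≤ (J - gV 0) + gV 0 := by omega
          have : (J : ℝ) ≤ ((J - gV 0 : ℕ) : ℝ) + gV 0 := by exact_mod_cast this
          linarith
        have k3 : ((J - (g 0 + R) : ℕ) : ℝ) = (J : ℝ) - (g 0 + R) := by
          rw [Nat.cast_sub hRJ]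
          push_cast
          ring
        have k4 : ((R - th : ℕ) : ℝ) = (R : ℝ) - th := Nat.cast_sub hR
        have k5 : (gV 0 : ℝ) ≤ g 0 + th + x := by exact_mod_cast hg0
        linarith
      have k6 := mul_le_mul_of_nonneg_right k1 hl2
      linarith)) fy fP
  refine h9.trans ?_
  have hBz : Bz x = 126 * x + 193 := by
    unfold Bz Pool.D2N.Kf
    ring
  rw [hBz]
  push_cast
  have hxl : 0 ≤ (x : ℝ) * Real.log 2 := mul_nonneg (Nat.cast_nonneg _) hl2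
  linarith

end

end Pool.TY12
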