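import Pool.Agent.H90.D2.Hid

/-!
# The tie cell `(1,k,k;k+1)`, `k > 2`: numbers of the grid

`g0_le`: the level of the first coordinate between two windows. `grd_gw`, `grd_u`: this level against
the window. `hY_grd`: the position of the first coordinate at the windows of the grid is full, class form.
-/

set_option autoImplicit false

namespace Pool.TY12

open Finset Real
open Pool.Agent.H49.Ent Pool.Agent.H32.Dense Pool.STK Pool.KA Pool.KSAT Pool.K2S Pool.PB Pool.S6C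
open Pool.GEN Pool.CHT Pool.CHX Pool.LA91
open Pool.D2N (wG)
open Pool.M3F (ExvY)

variable {m : ℕ}

/-- The level of the first coordinate between two windows of the grid. -/
theorem g0_le {t q L₀ s : ℝ} {nd J x k k' th g g' : ℕ} (ht : 0 ≤ t) (hq : 0 ≤ q) (hs : s = 1)
    (h : 16 * |(g : ℝ) - (L₀ + s * (k / nd * q)) * J| ≤ x)
    (h' : 16 * |(g' : ℝ) - (L₀ + s * (k' / nd * q)) * J| ≤ x) (hx : 2 ≤ x)
    (hV : wG t q nd J k' = wG t q nd J k + th) : g' ≤ g + th + x := by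
  rw [hs, one_mul] at h h'
  have e2 : (wG t q nd J k : ℝ) ≤ (t + k / nd * q) * J := Nat.floor_le (by positivity)
  have e3 : (t + k' / nd * q) * J ≤ wG t q nd J k' + 1 := (Nat.lt_floor_add_one _).le
  rw [hV] at e3
  push_cast at e3
  have a1 := abs_le.1 (show |(g : ℝ) - (L₀ + k / nd * q) * J| ≤ x / 16 by linarith)
  have a2 := abs_le.1 (show |(g' : ℝ) - (L₀ + k' / nd * q) * J| ≤ x / 16 by linarith)
  have hxR : (2 : ℝ) ≤ x := by exact_mod_cast hx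
  have h1 : (g' : ℝ) ≤ ((g + th + x : ℕ) : ℝ) := by
    push_cast
    linarith [a1.1, a2.2]
  exact_mod_cast h1

/-- A weaker form of the levels. -/
theorem lv16 {κ a : ℝ} {x : ℕ} (hκ : 0 ≤ κ) (ha : 0 ≤ a) (h : 16 * (κ + 1) * a ≤ x) :
    16 * a ≤ x := by
  have h1 : 0 ≤ κ * a := mul_nonneg hκ ha
  linarith

/-- The level of the first coordinate against the window. -/
theorem grd_gw {t q L₀ s κ : ℝ} {nd J x u k g : ℕ} (ht : 0 ≤ t) (hq : 0 ≤ q) (hs : s = 1)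
    (hκ : 0 ≤ κ) (hl : 16 * (κ + 1) * (|L₀ - t| * J) ≤ x) (hu : 2 * (x / (16 * (κ + 1))) + 2 ≤ (u : ℝ))
    (h : 16 * (κ + 1) * |(g : ℝ) - (L₀ + s * (k / nd * q)) * J| ≤ x) :
    wG t q nd J k ≤ g + u ∧ g ≤ wG t q nd J k + u := by
  have hJ : (0 : ℝ) ≤ J := Nat.cast_nonneg J
  have hκ1 : 0 < 16 * (κ + 1) := by positivity
  rw [hs, one_mul] at h
  have e2 : (wG t q nd J k : ℝ) ≤ (t + k / nd * q) * J := Nat.floor_le (by positivity)
  have e3 : (t + k / nd * q) * J ≤ wG t q nd J k + 1 := (Nat.lt_floor_add_one _).le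
  have a1 := abs_le.1 (show |(g : ℝ) - (L₀ + k / nd * q) * J| ≤ x / (16 * (κ + 1)) by
    rw [le_div_iff₀ hκ1]
    linarith)
  have a2 := abs_le.1 (show |(L₀ - t) * J| ≤ x / (16 * (κ + 1)) by
    rw [le_div_iff₀ hκ1, abs_mul, abs_of_nonneg hJ]
    linarith)
  constructor
  · have h1 : (wG t q nd J k : ℝ) ≤ ((g + u : ℕ) : ℝ) := by
      push_cast
      linarith [a1.1, a1.2, a2.1, a2.2]
    exact_mod_cast h1
  · have h1 : (g : ℝ) ≤ ((wG t q nd J k + u : ℕ) : ℝ) := by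
      push_cast
      linarith [a1.1, a1.2, a2.1, a2.2]
    exact_mod_cast h1

/-- The number `u`. -/
theorem grd_u {κ : ℝ} {x : ℕ} (hκ : 0 ≤ κ) (hx : 100 * (κ + 1) ≤ x) :
    ∃ u : ℕ, 2 * ((x : ℝ) / (16 * (κ + 1))) + 2 ≤ u ∧ κ * ((u : ℝ) + 2) ≤ x ∧ (u : ℝ) ≤ x := by
  have hκ1 : 0 < 16 * (κ + 1) := by positivity
  obtain ⟨y, hy⟩ : ∃ y : ℝ, y = (x : ℝ) / (16 * (κ + 1)) := ⟨_, rfl⟩
  have hy0 : 0 ≤ y := by
    rw [hy]
    positivity
  have hyx : y * (16 * (κ + 1)) = x := by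
    rw [hy]
    field_simp
  rw [← hy]
  have h1 := (Nat.ceil_lt_add_one (show 0 ≤ 2 * y + 2 by positivity)).le
  have h2 : 0 ≤ κ * y := mul_nonneg hκ hy0
  refine ⟨⌈2 * y + 2⌉₊, Nat.le_ceil _, ?_, ?_⟩
  · have h3 := mul_le_mul_of_nonneg_left h1 hκ
    nlinarith
  · linarith

/-- **The position of the first coordinate is full** at all windows of the grid, on large events. -/
theorem hY_grd {S : PCl m}
    (hpos : ∀ (τ : ℝ) (J : ℕ) (F : Fam m J) (A : F.Ω → Prop), S.St τ J F A → 0 < Pe F.p A)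
    {c : ℕ → Fin m} {L : ℕ → ℝ → ℝ → ℝ} {Sl : ℕ → ℝ} {t q ε y : ℝ} {nd : ℕ} (hy : 0 < y)
    (hq : 0 < q) (hεy : ε ≤ y)
    (hex : ∀ k ≤ nd, ∀ ρ : ℝ, 0 < ρ → ExvY S (t + k / nd * q) (fun J F ω => F.X J ω (c 0))
      ((1 - L 0 (t + k / nd * q) (t + k / nd * q)) - ρ))
    (hL : ∀ k ≤ nd, |L 0 (t + k / nd * q) (t + k / nd * q) - L 0 t t - Sl 0 * (k / nd * q)| ≤
      ε * q) {c₁ : ℝ} (hc₁ : 0 < c₁) :
    Bas S (fun J F A => ∀ k < nd + 1, ∀ B : F.Ω → Prop, Sub B A → c₁ * Pe F.p A ≤ Pe F.p B →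
      ∀ x gk : ℕ, (x : ℝ) ≤ y * q * J →
      16 * |(gk : ℝ) - (L 0 t t + Sl 0 * (k / nd * q)) * J| ≤ x →
      ∀ (Vt : Type) (zt : PtT F → Vt) (ztH : LnT F → Vt),
      (∀ ω, B ω → zt (ptr F J ω) = ztH (slam F (wG t q nd J k) ω)) →
      ((J - gk : ℕ) : ℝ) * Real.log 2 - 3 * (y * q * J) ≤
        CH (cond F.p B True) (fun ω => F.X J ω (c 0))
          (fun ω => (F.T ω, ztH (slam F (wG t q nd J k) ω)))) := by
  have hP : Bas S (fun _ F A => 0 < Pe F.p A) := ⟨1, one_pos, 0, fun J _ F A h => hpos _ _ _ _ h⟩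
  have hyq : 0 < y * q := by positivity
  have hl2 : 0 < Real.log 2 := Real.log_pos one_lt_two
  have hl1 : Real.log 2 ≤ 1 := by
    have := Real.log_two_lt_d9
    linarith
  refine Bas.mono 0 ((Bas.all (nd + 1) fun k hk => bas_ev (hex k (by omega) _ hyq) hc₁).and hP) ?_
  rintro J - F A ⟨hA, hA0⟩ k hk B hBA hcB x gk hx hgk Vt zt ztH hz
  have hJ : (0 : ℝ) ≤ J := Nat.cast_nonneg J
  have hB0 : 0 < Pe F.p B := (mul_pos hc₁ hA0).trans_le hcB
  have hp := isLaw_cond F.isLaw hB0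
  have h1 := hA k hk B hBA hcB Vt zt ztH hz
  have h2 : CH (cond F.p B True) (fun ω => F.X J ω (c 0))
      (fun ω => (ztH (slam F ⌊(t + k / nd * q) * J⌋₊ ω), F.W ω)) ≤
      CH (cond F.p B True) (fun ω => F.X J ω (c 0))
        (fun ω => (F.T ω, ztH (slam F (wG t q nd J k) ω))) :=
    CH_mono_cond hp.nonneg fun ω ω' _ _ e => by
      obtain ⟨h2, h3⟩ := Prod.mk.inj e
      exact Prod.ext (Prod.ext_iff.1 h3).1 h2
  have h0 : 0 ≤ CH (cond F.p B True) (fun ω => F.X J ω (c 0))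
      (fun ω => (F.T ω, ztH (slam F (wG t q nd J k) ω))) := CH_nonneg hp.nonneg _ _
  have hyJ : 0 ≤ y * q * J := by positivity
  rcases Nat.lt_or_ge J gk with h3 | h3
  · have e1 : J - gk = 0 := by omega
    rw [e1]
    push_cast
    linarith
  have a1 := abs_le.1 (show |(gk : ℝ) - (L 0 t t + Sl 0 * (k / nd * q)) * J| ≤ x / 16 by linarith)
  have a2 := abs_le.1 (hL k (by omega))
  have a3 : ε * q * J ≤ y * q * J :=
    mul_le_mul_of_nonneg_right (mul_le_mul_of_nonneg_right hεy hq.le) hJ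
  have a4 := mul_le_mul_of_nonneg_right (show L 0 (t + k / nd * q) (t + k / nd * q) ≤
    L 0 t t + Sl 0 * (k / nd * q) + ε * q by linarith [a2.2]) hJ
  have a5 : ((J - gk : ℕ) : ℝ) ≤ (1 - L 0 (t + k / nd * q) (t + k / nd * q)) * J +
      2 * (y * q * J) := by
    rw [Nat.cast_sub h3]
    linarith [a1.1]
  have a6 := mul_le_mul_of_nonneg_right a5 hl2.le
  have a7 : y * q * J * Real.log 2 ≤ y * q * J * 1 := mul_le_mul_of_nonneg_left hl1 hyJ
  beta_reduce at h1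
  linarith

end Pool.TY12
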