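import Pool.Agent.H71.GEN.Nst

/-!
# Two scales with an active interval

`act_mesh`: a range of more than `ε M` intervals of a mesh contains an active interval. `sel_th`: two
scales `θ' < θ`, `θ'` a small part of `θ`, such that the intervals of length `x` behind both are
active; `x` is a small part of both scales.
-/

set_option autoImplicit false

namespace Pool.TY12

open Finset Real
open Pool.GEN

variable {N : ℚ → ℚ → ℝ} {al : ℝ} {g₀ : ℝ → ℝ}

/-- **An active interval of a mesh.** -/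
theorem act_mesh (h : ActM N al g₀) {ε : ℝ} (hε : 0 < ε) {g : ℚ} (hg : 0 < g)
    (hgg : (g : ℝ) ≤ g₀ ε) {M a b : ℕ} (hb : b ≤ M) (hab : ε * M + a < b) :
    ∃ i : ℕ, a ≤ i ∧ i < b ∧
      (al - ε) * ((g : ℝ) / M) ≤ N (i * (g / M)) ((i + 1) * (g / M)) := by
  by_contra hcon
  push Not at hcon
  have h1 := h ε hε g hg hgg M
  have h2 : Finset.Ico a b ⊆ (range M).filter fun i : ℕ => N (i * (g / M)) ((i + 1) * (g / M)) <
      (al - ε) * ((g : ℝ) / M) := by
    intro i hi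
    rw [Finset.mem_Ico] at hi
    rw [Finset.mem_filter, Finset.mem_range]
    exact ⟨hi.2.trans_le hb, hcon i hi.1 hi.2⟩
  have h3 := Finset.card_le_card h2
  rw [Nat.card_Ico] at h3
  have h4 : ((b - a : ℕ) : ℝ) ≤ ε * M := le_trans (by exact_mod_cast h3) h1
  have h5 : (b : ℝ) - a ≤ ((b - a : ℕ) : ℝ) := by
    rcases le_total a b with h | h
    · rw [Nat.cast_sub h]
    · have : (b : ℝ) ≤ a := by exact_mod_cast h
      have h6 : (0 : ℝ) ≤ ((b - a : ℕ) : ℝ) := Nat.cast_nonneg _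
      linarith
  linarith

/-- **Two scales with active intervals.** -/
theorem sel_th (h : ActM N al g₀) (hal : 0 < al) (hg₀ : ∀ ε, 0 < ε → 0 < g₀ ε) {κ : ℝ}
    (hκ : 0 < κ) (C : ℝ) {U : ℝ} (hU : 0 < U) :
    ∃ θ' θ x : ℚ, 0 < x ∧ 0 < θ' ∧ (C * x ≤ θ') ∧ (θ' + C * x ≤ κ * θ) ∧ (θ' + x ≤ θ) ∧
      ((θ : ℝ) + x ≤ U) ∧ al / 2 * x ≤ N θ' (θ' + x) ∧ al / 2 * x ≤ N θ (θ + x) := by
  obtain ⟨c, hc⟩ : ∃ c : ℝ, c = min κ 1 / 8 := ⟨_, rfl⟩
  have hc0 : 0 < c := by
    rw [hc]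
    exact div_pos (lt_min hκ one_pos) (by norm_num)
  have hc1 : c ≤ 1 / 8 := by
    rw [hc]
    have := min_le_right κ 1
    linarith
  have hcκ : 8 * c ≤ κ := by
    rw [hc]
    have := min_le_left κ 1
    linarith
  obtain ⟨ε, hεe⟩ : ∃ ε : ℝ, ε = min (al / 2) (c / 4) := ⟨_, rfl⟩
  have hε : 0 < ε := by
    rw [hεe]
    exact lt_min (by positivity) (by positivity)
  have hε1 : ε ≤ al / 2 := by
    rw [hεe]
    exact min_le_left _ _
  have hε2 : ε ≤ c / 4 := by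
    rw [hεe]
    exact min_le_right _ _
  obtain ⟨C', hC'⟩ : ∃ C' : ℝ, C' = max C 1 := ⟨_, rfl⟩
  have hCC : C ≤ C' := by
    rw [hC']
    exact le_max_left _ _
  have hC1 : 1 ≤ C' := by
    rw [hC']
    exact le_max_right _ _
  obtain ⟨M, hM⟩ := exists_nat_ge (16 * C' / c)
  have hM1 : 16 * C' ≤ c * M := by
    rw [div_le_iff₀ hc0] at hM
    linarith
  have hM0 : (0 : ℝ) < M := by
    by_contra hcon
    rw [not_lt] at hcon
    have := mul_nonpos_of_nonneg_of_nonpos hc0.le hcon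
    linarith
  obtain ⟨g, hg1, hg2⟩ := exists_rat_btwn (lt_min (hg₀ ε hε) hU)
  have hg0 : (0 : ℚ) < g := by exact_mod_cast hg1
  have hgg : (g : ℝ) ≤ g₀ ε := hg2.le.trans (min_le_left _ _)
  have hgU : (g : ℝ) ≤ U := hg2.le.trans (min_le_right _ _)
  have hMq : (0 : ℚ) < M := by exact_mod_cast hM0
  obtain ⟨x, hx⟩ : ∃ x : ℚ, x = g / M := ⟨_, rfl⟩
  have hx0 : 0 < x := by
    rw [hx]
    positivity
  have hxR : (x : ℝ) = (g : ℝ) / M := by
    rw [hx]
    push_cast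
    rfl
  have hx0' : (0 : ℝ) < x := by exact_mod_cast hx0
  have hxM : (x : ℝ) * M = g := by
    rw [hxR]
    field_simp
  -- the small scale
  have hcM : 0 ≤ c * M := by positivity
  obtain ⟨i', a1, a2, a3⟩ := act_mesh h hε hg0 hgg (M := M) (a := ⌈c * M⌉₊) (b := ⌊2 * (c * M)⌋₊)
    (by
      have h1 : ((⌊2 * (c * M)⌋₊ : ℕ) : ℝ) ≤ M := by
        refine (Nat.floor_le (by positivity)).trans ?_
        have := mul_le_mul_of_nonneg_right hc1 hM0.le
        linarith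
      exact_mod_cast h1)
    (by
      have h1 := Nat.ceil_lt_add_one hcM
      have h2 := Nat.sub_one_lt_floor (2 * (c * M))
      have h3 := mul_le_mul_of_nonneg_right hε2 hM0.le
      linarith)
  -- the large scale
  obtain ⟨i, b1, b2, b3⟩ := act_mesh h hε hg0 hgg (M := M) (a := ⌈(M : ℝ) / 2⌉₊) (b := M) le_rfl
    (by
      have h1 := Nat.ceil_lt_add_one (a := (M : ℝ) / 2) (by positivity)
      have h3 := mul_le_mul_of_nonneg_right hε2 hM0.le
      have h4 := mul_le_mul_of_nonneg_right hc1 hM0.le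
      linarith)
  have a1' : c * M ≤ i' := (Nat.le_ceil _).trans (by exact_mod_cast a1)
  have a2' : (i' : ℝ) + 1 ≤ 2 * (c * M) := by
    have h1 : ((i' + 1 : ℕ) : ℝ) ≤ ((⌊2 * (c * M)⌋₊ : ℕ) : ℝ) := by exact_mod_cast a2
    have h2 := Nat.floor_le (show 0 ≤ 2 * (c * M) by positivity)
    push_cast at h1
    linarith
  have b1' : (M : ℝ) / 2 ≤ i := (Nat.le_ceil _).trans (by exact_mod_cast b1)
  have b2' : (i : ℝ) + 1 ≤ M := by exact_mod_cast b2
  have e1 : ∀ j : ℕ, ((j * (g / M) : ℚ) : ℝ) = j * x := fun j => by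
    rw [hxR]
    push_cast
    rfl
  have e2 : ∀ j : ℕ, ((j : ℚ) + 1) * (g / M) = j * (g / M) + x := fun j => by
    rw [hx]
    ring
  rw [e2, ← hxR] at a3 b3
  have hax : al / 2 * x ≤ (al - ε) * x := mul_le_mul_of_nonneg_right (by linarith) hx0'.le
  refine ⟨i' * (g / M), i * (g / M), x, hx0, ?_, ?_, ?_, ?_, ?_, hax.trans a3, hax.trans b3⟩
  · have h1 : (0 : ℝ) < ((i' * (g / M) : ℚ) : ℝ) := by
      rw [e1]
      refine mul_pos (lt_of_lt_of_le ?_ a1') hx0'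
      positivity
    exact_mod_cast h1
  · rw [e1]
    exact mul_le_mul_of_nonneg_right (by linarith) hx0'.le
  · rw [e1, e1, ← mul_assoc, ← add_mul]
    refine mul_le_mul_of_nonneg_right ?_ hx0'.le
    have h1 : 8 * c * (M / 2) ≤ κ * i := mul_le_mul hcκ b1' (by positivity) hκ.le
    linarith
  · have h1 : ((i' * (g / M) : ℚ) : ℝ) + x ≤ ((i * (g / M) : ℚ) : ℝ) := by
      rw [e1, e1]
      have h2 : ((i' : ℝ) + 1) * x ≤ i * x := by
        refine mul_le_mul_of_nonneg_right ?_ hx0'.le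
        have := mul_le_mul_of_nonneg_right hc1 hM0.le
        linarith
      linarith
    exact_mod_cast h1
  · rw [e1]
    have h2 : ((i : ℝ) + 1) * x ≤ M * x := mul_le_mul_of_nonneg_right b2' hx0'.le
    have h3 : (M : ℝ) * x = g := by rw [mul_comm, hxM]
    linarith

/-- **Two active intervals of one mesh, the number of intervals and `ε` given before the measure.** -/
theorem sel_mesh {κ : ℝ} (hal : 0 < al) (hκ : 0 < κ) (C : ℝ) :
    ∃ M : ℕ, 0 < M ∧ ∃ ε : ℝ, 0 < ε ∧ ∀ {N : ℚ → ℚ → ℝ} {g₀ : ℝ → ℝ}, ActM N al g₀ →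
      ∀ g : ℚ, 0 < g → (g : ℝ) ≤ g₀ ε → ∃ i' i : ℕ, i < M ∧ C ≤ i' ∧ (i' : ℝ) + C ≤ κ * i ∧
        i' + 1 ≤ i ∧ al / 2 * ((g : ℝ) / M) ≤ N (i' * (g / M)) ((i' + 1) * (g / M)) ∧
        al / 2 * ((g : ℝ) / M) ≤ N (i * (g / M)) ((i + 1) * (g / M)) := by
  obtain ⟨c, hc⟩ : ∃ c : ℝ, c = min κ 1 / 8 := ⟨_, rfl⟩
  have hc0 : 0 < c := by
    rw [hc]
    exact div_pos (lt_min hκ one_pos) (by norm_num)
  have hc1 : c ≤ 1 / 8 := by
    rw [hc]
    have := min_le_right κ 1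
    linarith
  have hcκ : 8 * c ≤ κ := by
    rw [hc]
    have := min_le_left κ 1
    linarith
  obtain ⟨ε, hεe⟩ : ∃ ε : ℝ, ε = min (al / 2) (c / 4) := ⟨_, rfl⟩
  have hε : 0 < ε := by
    rw [hεe]
    exact lt_min (by positivity) (by positivity)
  have hε1 : ε ≤ al / 2 := by
    rw [hεe]
    exact min_le_left _ _
  have hε2 : ε ≤ c / 4 := by
    rw [hεe]
    exact min_le_right _ _
  obtain ⟨C', hC'⟩ : ∃ C' : ℝ, C' = max C 1 := ⟨_, rfl⟩
  have hCC : C ≤ C' := by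
    rw [hC']
    exact le_max_left _ _
  have hC1 : 1 ≤ C' := by
    rw [hC']
    exact le_max_right _ _
  obtain ⟨M, hM⟩ := exists_nat_ge (16 * C' / c)
  have hM1 : 16 * C' ≤ c * M := by
    rw [div_le_iff₀ hc0] at hM
    linarith
  have hM0 : (0 : ℝ) < M := by
    by_contra hcon
    rw [not_lt] at hcon
    have := mul_nonpos_of_nonneg_of_nonpos hc0.le hcon
    linarith
  refine ⟨M, by exact_mod_cast hM0, ε, hε, fun {N g₀} h g hg0 hgg => ?_⟩
  have hg0' : (0 : ℝ) < g := by exact_mod_cast hg0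
  have hx0 : 0 < (g : ℝ) / M := by positivity
  -- the small scale
  have hcM : 0 ≤ c * M := by positivity
  obtain ⟨i', a1, a2, a3⟩ := act_mesh h hε hg0 hgg (M := M) (a := ⌈c * M⌉₊) (b := ⌊2 * (c * M)⌋₊)
    (by
      have h1 : ((⌊2 * (c * M)⌋₊ : ℕ) : ℝ) ≤ M := by
        refine (Nat.floor_le (by positivity)).trans ?_
        have := mul_le_mul_of_nonneg_right hc1 hM0.le
        linarith
      exact_mod_cast h1)
    (by
      have h1 := Nat.ceil_lt_add_one hcM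
      have h2 := Nat.sub_one_lt_floor (2 * (c * M))
      have h3 := mul_le_mul_of_nonneg_right hε2 hM0.le
      linarith)
  -- the large scale
  obtain ⟨i, b1, b2, b3⟩ := act_mesh h hε hg0 hgg (M := M) (a := ⌈(M : ℝ) / 2⌉₊) (b := M) le_rfl
    (by
      have h1 := Nat.ceil_lt_add_one (a := (M : ℝ) / 2) (by positivity)
      have h3 := mul_le_mul_of_nonneg_right hε2 hM0.le
      have h4 := mul_le_mul_of_nonneg_right hc1 hM0.le
      linarith)
  have a1' : c * M ≤ i' := (Nat.le_ceil _).trans (by exact_mod_cast a1)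
  have a2' : (i' : ℝ) + 1 ≤ 2 * (c * M) := by
    have h1 : ((i' + 1 : ℕ) : ℝ) ≤ ((⌊2 * (c * M)⌋₊ : ℕ) : ℝ) := by exact_mod_cast a2
    have h2 := Nat.floor_le (show 0 ≤ 2 * (c * M) by positivity)
    push_cast at h1
    linarith
  have b1' : (M : ℝ) / 2 ≤ i := (Nat.le_ceil _).trans (by exact_mod_cast b1)
  have hax : al / 2 * ((g : ℝ) / M) ≤ (al - ε) * ((g : ℝ) / M) :=
    mul_le_mul_of_nonneg_right (by linarith) hx0.le
  refine ⟨i', i, b2, by linarith, ?_, ?_, hax.trans a3, hax.trans b3⟩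
  · have h1 : 8 * c * (M / 2) ≤ κ * i := mul_le_mul hcκ b1' (by positivity) hκ.le
    linarith
  · have h1 : ((i' + 1 : ℕ) : ℝ) ≤ (i : ℕ) := by
      push_cast
      have := mul_le_mul_of_nonneg_right hc1 hM0.le
      linarith
    exact_mod_cast h1

end Pool.TY12
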